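import Mathlib
import Pool.Agent.TH653.MC.C15

set_option autoImplicit false

/-! # Riesz products on intervals -/

namespace Pool.Agent.TH653.MD

open Real MeasureTheory Pool.Agent.TH653.MC

/-- the Fourier coefficients of the Riesz product times a function, over an interval -/
noncomputable def JI (a b : ℝ) (lam : ℕ → ℤ) (u : ℂ) (ε : ℝ) (F : ℝ → ℂ) (n : ℕ) (m : ℤ) : ℂ :=
  ∫ θ in a..b, (RR lam u ε n θ : ℂ) * Complex.exp (-(m * θ * Complex.I)) * F θ

variable {lam : ℕ → ℤ} {u : ℂ} {ε : ℝ} {F : ℝ → ℂ} {a b : ℝ}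

theorem JI_succ (hF : Continuous F) (n : ℕ) (m : ℤ) : JI a b lam u ε F (n + 1) m = JI a b lam u ε F n m +
    (ε : ℂ) / 2 * (u * JI a b lam u ε F n (m - lam n) + (starRingEnd ℂ) u * JI a b lam u ε F n (m + lam n)) := by
  unfold JI
  have hR : Continuous fun θ => (RR lam u ε n θ : ℂ) := Complex.continuous_ofReal.comp (RR_cont n)
  have hc : ∀ k : ℤ, Continuous fun θ : ℝ => (RR lam u ε n θ : ℂ) *
      Complex.exp (-(k * θ * Complex.I)) * F θ := by
    intro k
    apply Continuous.mul _ hF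
    apply hR.mul
    fun_prop
  have hi : ∀ k : ℤ, IntervalIntegrable (fun θ : ℝ => (RR lam u ε n θ : ℂ) *
      Complex.exp (-(k * θ * Complex.I)) * F θ) volume a b :=
    fun k => (hc k).intervalIntegrable _ _
  rw [← intervalIntegral.integral_const_mul, ← intervalIntegral.integral_const_mul,
    ← intervalIntegral.integral_add ((hi _).const_mul _) ((hi _).const_mul _),
    ← intervalIntegral.integral_const_mul, ← intervalIntegral.integral_add (hi _)
      (((hi _).const_mul _).add ((hi _).const_mul _) |>.const_mul _)]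
  apply intervalIntegral.integral_congr
  intro θ _
  simp only [RR]
  push_cast
  rw [XX_eq]
  have e1 : Complex.exp (-(((m : ℂ) - lam n) * θ * Complex.I)) =
      Complex.exp (-(m * θ * Complex.I)) * Complex.exp (lam n * θ * Complex.I) := by
    rw [← Complex.exp_add]
    congr 1
    ring
  have e2 : Complex.exp (-(((m : ℂ) + lam n) * θ * Complex.I)) =
      Complex.exp (-(m * θ * Complex.I)) * Complex.exp (-(lam n * θ * Complex.I)) := by
    rw [← Complex.exp_add]
    congr 1
    ring
  rw [e1, e2]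
  ring

theorem JI_diff (hl : ∀ i, 0 ≤ lam i) (hu : ‖u‖ ≤ 1) (hε : 0 ≤ ε) (hF : Continuous F) {w : ℤ → ℝ}
    (n : ℕ) (m : ℤ) (h : ∀ k, |k - m| ≤ ∑ i ∈ Finset.range n, lam i → ‖JI a b lam u ε F 0 k‖ ≤ w k) :
    ‖JI a b lam u ε F n m - JI a b lam u ε F 0 m‖ ≤ TT lam ε n w m - w m := by
  induction n generalizing m with
  | zero => simp [TT]
  | succ n ih =>
    have hl' := hl n
    rw [Finset.sum_range_succ] at h
    have hS : 0 ≤ ∑ i ∈ Finset.range n, lam i := Finset.sum_nonneg (fun i _ => hl i)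
    have h1 := ih m (fun k hk => h k (by linarith))
    have h2 := ih (m + lam n) (fun k hk => h k (by
      rw [abs_le] at hk ⊢
      constructor <;> linarith [hk.1, hk.2]))
    have h3 := ih (m - lam n) (fun k hk => h k (by
      rw [abs_le] at hk ⊢
      constructor <;> linarith [hk.1, hk.2]))
    have h2' := h (m + lam n) (by
      rw [show m + lam n - m = lam n by ring, abs_of_nonneg hl']
      linarith)
    have h3' := h (m - lam n) (by
      rw [show m - lam n - m = -lam n by ring, abs_neg, abs_of_nonneg hl']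
      linarith)
    have n2 : ‖JI a b lam u ε F n (m + lam n)‖ ≤ TT lam ε n w (m + lam n) := by
      have := norm_add_le (JI a b lam u ε F n (m + lam n) - JI a b lam u ε F 0 (m + lam n))
        (JI a b lam u ε F 0 (m + lam n))
      rw [sub_add_cancel] at this
      linarith
    have n3 : ‖JI a b lam u ε F n (m - lam n)‖ ≤ TT lam ε n w (m - lam n) := by
      have := norm_add_le (JI a b lam u ε F n (m - lam n) - JI a b lam u ε F 0 (m - lam n))
        (JI a b lam u ε F 0 (m - lam n))
      rw [sub_add_cancel] at this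
      linarith
    rw [JI_succ hF]
    simp only [TT]
    have e1 : JI a b lam u ε F n m + (ε : ℂ) / 2 * (u * JI a b lam u ε F n (m - lam n) +
        (starRingEnd ℂ) u * JI a b lam u ε F n (m + lam n)) - JI a b lam u ε F 0 m =
        (JI a b lam u ε F n m - JI a b lam u ε F 0 m) + (ε : ℂ) / 2 * (u * JI a b lam u ε F n (m - lam n) +
        (starRingEnd ℂ) u * JI a b lam u ε F n (m + lam n)) := by ring
    rw [e1]
    have e2 : ‖(ε : ℂ) / 2 * (u * JI a b lam u ε F n (m - lam n) +
        (starRingEnd ℂ) u * JI a b lam u ε F n (m + lam n))‖ ≤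
        ε / 2 * (TT lam ε n w (m + lam n) + TT lam ε n w (m - lam n)) := by
      rw [norm_mul, norm_div, Complex.norm_real, Real.norm_of_nonneg hε, Complex.norm_ofNat]
      apply mul_le_mul_of_nonneg_left _ (by linarith)
      refine (norm_add_le _ _).trans ?_
      rw [norm_mul, norm_mul, Complex.norm_conj]
      have := mul_le_mul hu n3 (norm_nonneg _) zero_le_one
      have := mul_le_mul hu n2 (norm_nonneg _) zero_le_one
      linarith
    have e3 := norm_add_le (JI a b lam u ε F n m - JI a b lam u ε F 0 m)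
      ((ε : ℂ) / 2 * (u * JI a b lam u ε F n (m - lam n) +
        (starRingEnd ℂ) u * JI a b lam u ε F n (m + lam n)))
    linarith

theorem JI_one_bound {m : ℤ} (hm : m ≠ 0) :
    ‖JI a b lam u ε (fun _ => 1) 0 m‖ ≤ 2 / |(m : ℝ)| := by
  have hc : (-(m * Complex.I) : ℂ) ≠ 0 := by
    rw [neg_ne_zero]
    exact mul_ne_zero (by exact_mod_cast hm) Complex.I_ne_zero
  have e1 : JI a b lam u ε (fun _ => 1) 0 m = ∫ θ in a..b, Complex.exp ((-(m * Complex.I)) * θ) := by
    unfold JI
    apply intervalIntegral.integral_congr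
    intro θ _
    simp only [RR]
    push_cast
    rw [one_mul, mul_one]
    congr 1
    ring
  rw [e1, integral_exp_mul_complex hc, norm_div]
  have e2 : ‖(-(m * Complex.I) : ℂ)‖ = |(m : ℝ)| := by
    rw [norm_neg, norm_mul, Complex.norm_I, mul_one, Complex.norm_intCast]
  rw [e2]
  apply div_le_div_of_nonneg_right _ (abs_nonneg _)
  refine (norm_sub_le _ _).trans ?_
  have e3 : ∀ x : ℝ, ‖Complex.exp (-(m * Complex.I) * x)‖ = 1 := by
    intro x
    rw [Complex.norm_exp]
    have : (-(m * Complex.I) * x : ℂ).re = 0 := by simp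
    rw [this, Real.exp_zero]
  rw [e3, e3]
  norm_num

theorem JI_lam_bound (hl : ∀ i, 0 ≤ lam i) (hlac : ∀ l, 2 * ∑ i ∈ Finset.range l, lam i < lam l)
    (hu : ‖u‖ ≤ 1) (hε : 0 ≤ ε) {l : ℕ} {m : ℤ} (hm : |m| = lam l) :
    ‖JI a b lam u ε (fun _ => 1) l m‖ ≤ (1 + ε) ^ l * (4 / lam l) := by
  have hS : 0 ≤ ∑ i ∈ Finset.range l, lam i := Finset.sum_nonneg (fun i _ => hl i)
  have h1 := hlac l
  have hl0 : (0 : ℝ) < lam l := by exact_mod_cast (by linarith : (0 : ℤ) < lam l)
  have hb : ∀ k, |k - m| ≤ ∑ i ∈ Finset.range l, lam i →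
      ‖JI a b lam u ε (fun _ => 1) 0 k‖ ≤ 4 / (lam l : ℝ) := by
    intro k hk
    have h2 : |m| ≤ |k| + |k - m| := by
      calc |m| = |k - (k - m)| := by congr 1; ring
        _ ≤ |k| + |k - m| := abs_sub _ _
    have h3 : lam l ≤ 2 * |k| := by linarith
    have h4 : (lam l : ℝ) ≤ 2 * |(k : ℝ)| := by exact_mod_cast h3
    have hk0 : k ≠ 0 := by
      intro h0
      rw [h0, abs_zero, mul_zero] at h3
      linarith
    refine (JI_one_bound hk0).trans ?_
    have h5 : 0 < |(k : ℝ)| := by linarith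
    rw [div_le_div_iff₀ h5 hl0]
    linarith
  have h2 := JI_diff (a := a) (b := b) hl hu hε continuous_const (w := fun _ => 4 / (lam l : ℝ)) l m hb
  rw [TT_const] at h2
  have h3 := hb m (by rw [sub_self, abs_zero]; exact hS)
  have h4 := norm_add_le (JI a b lam u ε (fun _ => 1) l m - JI a b lam u ε (fun _ => 1) 0 m)
    (JI a b lam u ε (fun _ => 1) 0 m)
  rw [sub_add_cancel] at h4
  linarith

theorem int_RR_re' {p : ℂ} (hF : Continuous F) (n : ℕ) (m : ℤ) :
    ∫ θ in a..b, RR lam u ε n θ * (p * (Complex.exp (-(m * θ * Complex.I)) * F θ)).re =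
      (p * JI a b lam u ε F n m).re := by
  unfold JI
  have hc : Continuous fun θ : ℝ => p * ((RR lam u ε n θ : ℂ) *
      Complex.exp (-(m * θ * Complex.I)) * F θ) := by
    apply continuous_const.mul
    apply Continuous.mul _ hF
    apply (Complex.continuous_ofReal.comp (RR_cont n)).mul
    fun_prop
  rw [← intervalIntegral.integral_const_mul]
  have h1 := (Complex.reCLM).intervalIntegral_comp_comm (hc.intervalIntegrable (μ := volume) a b)
  simp only [Complex.reCLM_apply] at h1
  rw [← h1]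
  apply intervalIntegral.integral_congr
  intro θ _
  simp only
  rw [← Complex.re_ofReal_mul]
  congr 1
  ring

theorem int_RR_XX' {G : ℝ → ℝ} (hG : Continuous G) (l n : ℕ) :
    ∫ θ in a..b, RR lam u ε n θ * XX lam u l θ * G θ =
      (u * JI a b lam u ε (fun θ => (G θ : ℂ)) n (-lam l)).re := by
  rw [← int_RR_re' (F := fun θ => (G θ : ℂ)) (Complex.continuous_ofReal.comp hG)]
  apply intervalIntegral.integral_congr
  intro θ _
  simp only
  unfold XX
  rw [mul_assoc]
  congr 1
  have : u * (Complex.exp (-(((-lam l : ℤ) : ℂ) * θ * Complex.I)) * (G θ : ℂ)) =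
      (G θ : ℂ) * (u * Complex.exp (lam l * θ * Complex.I)) := by
    have e : Complex.exp (-(((-lam l : ℤ) : ℂ) * θ * Complex.I)) =
        Complex.exp (lam l * θ * Complex.I) := by
      congr 1
      push_cast
      ring
    rw [e]
    ring
  rw [this, Complex.re_ofReal_mul]
  ring

theorem int_RR_step (l : ℕ) : ∫ θ in a..b, RR lam u ε (l + 1) θ =
    (∫ θ in a..b, RR lam u ε l θ) + ε * (u * JI a b lam u ε (fun _ => 1) l (-lam l)).re := by
  have h1 := int_RR_XX' (lam := lam) (u := u) (ε := ε) (a := a) (b := b) (G := fun _ => 1)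
    continuous_const l l
  simp only [Complex.ofReal_one, mul_one] at h1
  rw [← h1, ← intervalIntegral.integral_const_mul, ← intervalIntegral.integral_add]
  · apply intervalIntegral.integral_congr
    intro θ _
    simp only [RR]
    ring
  · exact (RR_cont l).intervalIntegrable _ _
  · exact (((RR_cont l).mul (XX_cont l)).const_smul ε).intervalIntegrable _ _

theorem int_RR_growth (hl : ∀ i, 0 ≤ lam i) (hlac : ∀ l, 2 * ∑ i ∈ Finset.range l, lam i < lam l)
    (hu : ‖u‖ ≤ 1) (hε : 0 ≤ ε) {n N : ℕ} (hnN : n ≤ N) :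
    ∫ θ in a..b, RR lam u ε N θ ≤ (∫ θ in a..b, RR lam u ε n θ) +
      ∑ l ∈ Finset.Ico n N, ε * ((1 + ε) ^ l * (4 / lam l)) := by
  induction N, hnN using Nat.le_induction with
  | base => simp
  | succ N hN ih =>
    rw [int_RR_step, Finset.sum_Ico_succ_top hN]
    have h1 := JI_lam_bound (a := a) (b := b) hl hlac hu hε (l := N) (m := -lam N) (by
      rw [abs_neg, abs_of_nonneg (hl N)])
    have h2 : (u * JI a b lam u ε (fun _ => 1) N (-lam N)).re ≤ (1 + ε) ^ N * (4 / lam N) := by
      refine ((le_abs_self _).trans (Complex.abs_re_le_norm _)).trans ?_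
      rw [norm_mul]
      refine le_trans ?_ h1
      exact mul_le_of_le_one_left (norm_nonneg _) hu
    have h3 := mul_le_mul_of_nonneg_left h2 hε
    linarith

/-! ### second moments -/

theorem JJ_eq (F : ℝ → ℂ) (n : ℕ) (m : ℤ) : JJ lam u ε F n m = JI 0 (2 * π) lam u ε F n m := rfl

theorem JJ_RR_far (hl : ∀ i, 0 ≤ lam i) (hu : ‖u‖ ≤ 1) (hε : 0 ≤ ε) {n l : ℕ} {m : ℤ}
    (h : ∑ i ∈ Finset.range n, lam i + ∑ i ∈ Finset.range l, lam i < |m|) :
    JJ lam u ε (fun θ => (RR lam u ε n θ : ℂ)) l m = 0 := by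
  have hR : Continuous fun θ => (RR lam u ε n θ : ℂ) := Complex.continuous_ofReal.comp (RR_cont n)
  apply JJ_zero hl hu hε hR
  intro k hk
  have e1 : JJ lam u ε (fun θ => (RR lam u ε n θ : ℂ)) 0 k = JJ lam u ε (fun _ => 1) n k := by
    unfold JJ
    apply intervalIntegral.integral_congr
    intro θ _
    simp only [RR]
    push_cast
    ring
  rw [e1]
  apply JJ_one_far hl hu hε
  have h2 : |m| ≤ |k| + |k - m| := by
    calc |m| = |k - (k - m)| := by congr 1; ring
      _ ≤ |k| + |k - m| := abs_sub _ _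
  linarith

theorem int_RR_mul (hl : ∀ i, 0 ≤ lam i) (hlac : ∀ l, 2 * ∑ i ∈ Finset.range l, lam i < lam l)
    (hu : ‖u‖ ≤ 1) (hε : 0 ≤ ε) {n N : ℕ} (hnN : n ≤ N) :
    ∫ θ in (0 : ℝ)..2 * π, RR lam u ε N θ * RR lam u ε n θ =
      ∫ θ in (0 : ℝ)..2 * π, RR lam u ε n θ * RR lam u ε n θ := by
  induction N, hnN using Nat.le_induction with
  | base => rfl
  | succ N hN ih =>
    rw [← ih]
    have h1 := int_RR_XX' (lam := lam) (u := u) (ε := ε) (a := 0) (b := 2 * π) (G := RR lam u ε n)
      (RR_cont n) N N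
    rw [← JJ_eq, JJ_RR_far hl hu hε (by
      rw [abs_neg, abs_of_nonneg (hl N)]
      have h2 : ∑ i ∈ Finset.range n, lam i ≤ ∑ i ∈ Finset.range N, lam i :=
        Finset.sum_le_sum_of_subset_of_nonneg (Finset.range_mono hN) (fun i _ _ => hl i)
      have := hlac N
      linarith), mul_zero, Complex.zero_re] at h1
    have h3 : ∫ θ in (0 : ℝ)..2 * π, RR lam u ε (N + 1) θ * RR lam u ε n θ =
        (∫ θ in (0 : ℝ)..2 * π, RR lam u ε N θ * RR lam u ε n θ) +
        ε * ∫ θ in (0 : ℝ)..2 * π, RR lam u ε N θ * XX lam u N θ * RR lam u ε n θ := by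
      rw [← intervalIntegral.integral_const_mul, ← intervalIntegral.integral_add]
      · apply intervalIntegral.integral_congr
        intro θ _
        simp only [RR]
        ring
      · exact ((RR_cont N).mul (RR_cont n)).intervalIntegrable _ _
      · exact ((((RR_cont N).mul (XX_cont N)).mul (RR_cont n)).const_smul ε).intervalIntegrable _ _
    rw [h3, h1, mul_zero, add_zero]

theorem int_RR_sq (hl : ∀ i, 0 ≤ lam i) (hlac : ∀ l, 2 * ∑ i ∈ Finset.range l, lam i < lam l)
    (hu : ‖u‖ ≤ 1) (hε : 0 ≤ ε) (n : ℕ) :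
    ∫ θ in (0 : ℝ)..2 * π, RR lam u ε n θ * RR lam u ε n θ ≤ 2 * π * (1 + ε ^ 2) ^ n := by
  have hpi := Real.pi_pos
  induction n with
  | zero => simp [RR]
  | succ n ih =>
    have h1 := int_RR_XX' (lam := lam) (u := u) (ε := ε) (a := 0) (b := 2 * π) (G := RR lam u ε n)
      (RR_cont n) n n
    rw [← JJ_eq, JJ_RR_far hl hu hε (by
      rw [abs_neg, abs_of_nonneg (hl n)]
      have := hlac n
      linarith), mul_zero, Complex.zero_re] at h1
    have i1 : IntervalIntegrable (fun θ => RR lam u ε n θ * RR lam u ε n θ) volume 0 (2 * π) :=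
      ((RR_cont n).mul (RR_cont n)).intervalIntegrable _ _
    have i2 : IntervalIntegrable (fun θ => RR lam u ε n θ * XX lam u n θ * RR lam u ε n θ)
        volume 0 (2 * π) := (((RR_cont n).mul (XX_cont n)).mul (RR_cont n)).intervalIntegrable _ _
    have h2 : ∫ θ in (0 : ℝ)..2 * π, RR lam u ε (n + 1) θ * RR lam u ε (n + 1) θ ≤
        ∫ θ in (0 : ℝ)..2 * π, ((1 + ε ^ 2) * (RR lam u ε n θ * RR lam u ε n θ) +
          2 * ε * (RR lam u ε n θ * XX lam u n θ * RR lam u ε n θ)) := by
      apply intervalIntegral.integral_mono_on (by positivity)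
      · exact ((RR_cont _).mul (RR_cont _)).intervalIntegrable _ _
      · exact (i1.const_mul _).add (i2.const_mul _)
      · intro θ _
        have h3 := XX_abs (lam := lam) hu n θ
        have h4 : XX lam u n θ ^ 2 ≤ 1 := by
          rw [← sq_abs]
          nlinarith [abs_nonneg (XX lam u n θ)]
        simp only [RR]
        have h5 : 0 ≤ (RR lam u ε n θ) ^ 2 * ε ^ 2 * (1 - XX lam u n θ ^ 2) := by
          apply mul_nonneg (by positivity)
          linarith
        nlinarith [h5]
    rw [intervalIntegral.integral_add (i1.const_mul _) (i2.const_mul _),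
      intervalIntegral.integral_const_mul, intervalIntegral.integral_const_mul, h1, mul_zero,
      add_zero] at h2
    calc _ ≤ (1 + ε ^ 2) * ∫ θ in (0 : ℝ)..2 * π, RR lam u ε n θ * RR lam u ε n θ := h2
      _ ≤ (1 + ε ^ 2) * (2 * π * (1 + ε ^ 2) ^ n) := mul_le_mul_of_nonneg_left ih (by positivity)
      _ = _ := by rw [pow_succ]; ring

/-! ### regularity -/

theorem XX_lip (hl : ∀ i, 0 ≤ lam i) (hu : ‖u‖ ≤ 1) (l : ℕ) (x y : ℝ) :
    |XX lam u l y - XX lam u l x| ≤ lam l * |y - x| := by
  have hl0 : (0 : ℝ) ≤ lam l := by exact_mod_cast hl l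
  unfold XX
  rw [← Complex.sub_re, ← mul_sub]
  refine (Complex.abs_re_le_norm _).trans ?_
  rw [norm_mul]
  have h1 : ‖Complex.exp (lam l * y * Complex.I) - Complex.exp (lam l * x * Complex.I)‖ ≤
      lam l * |y - x| := by
    have h2 : Complex.exp (lam l * y * Complex.I) - Complex.exp (lam l * x * Complex.I) =
        Complex.exp (lam l * x * Complex.I) * (Complex.exp (Complex.I * ((lam l * (y - x) : ℝ) : ℂ)) - 1) := by
      rw [mul_sub, mul_one, ← Complex.exp_add]
      congr 2
      push_cast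
      ring
    rw [h2, norm_mul]
    have h3 : ‖Complex.exp (lam l * x * Complex.I)‖ = 1 := by
      rw [Complex.norm_exp]
      have : (lam l * x * Complex.I : ℂ).re = 0 := by simp
      rw [this, Real.exp_zero]
    rw [h3, one_mul]
    refine (Real.norm_exp_I_mul_ofReal_sub_one_le).trans ?_
    rw [Real.norm_eq_abs, abs_mul, abs_of_nonneg hl0]
  calc ‖u‖ * ‖Complex.exp (lam l * y * Complex.I) - Complex.exp (lam l * x * Complex.I)‖ ≤
        1 * (lam l * |y - x|) := mul_le_mul hu h1 (norm_nonneg _) zero_le_one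
    _ = _ := one_mul _

theorem RR_reg (hl : ∀ i, 0 ≤ lam i) (hu : ‖u‖ ≤ 1) (hε : 0 ≤ ε) (hε1 : ε ≤ 1 / 2) (n : ℕ) (x y : ℝ) :
    RR lam u ε n y ≤ RR lam u ε n x *
      Real.exp (2 * ε * |y - x| * ((∑ i ∈ Finset.range n, lam i : ℤ) : ℝ)) := by
  induction n with
  | zero => simp [RR]
  | succ n ih =>
    have h0 := RR_nonneg (lam := lam) hu hε (by linarith : ε ≤ 1) n x
    have h0' := RR_nonneg (lam := lam) hu hε (by linarith : ε ≤ 1) n y
    have h1 := XX_lip hl hu n x y
    have h2 := XX_abs (lam := lam) hu n x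
    have h2' := XX_abs (lam := lam) hu n y
    rw [abs_le] at h1 h2 h2'
    have hl0 : (0 : ℝ) ≤ lam n := by exact_mod_cast hl n
    have h3 : 1 / 2 ≤ 1 + ε * XX lam u n x := by nlinarith [h2.1]
    have h3' : 0 ≤ 1 + ε * XX lam u n y := by nlinarith [h2'.1]
    obtain ⟨q, hq⟩ : ∃ q, q = lam n * |y - x| := ⟨_, rfl⟩
    have hq0 : 0 ≤ q := by rw [hq]; positivity
    rw [← hq] at h1
    have h4 : 1 + ε * XX lam u n y ≤ (1 + ε * XX lam u n x) * Real.exp (2 * ε * q) := by
      have e1 := Real.add_one_le_exp (2 * ε * q)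
      have e2 : ε * XX lam u n y ≤ ε * (XX lam u n x + q) :=
        mul_le_mul_of_nonneg_left (by linarith [h1.2]) hε
      have e3 : (1 + ε * XX lam u n x) * (2 * ε * q + 1) ≤
          (1 + ε * XX lam u n x) * Real.exp (2 * ε * q) :=
        mul_le_mul_of_nonneg_left e1 (by linarith)
      have e4 : 0 ≤ ε * q := by positivity
      nlinarith
    simp only [RR]
    rw [Finset.sum_range_succ]
    push_cast
    have h5 : Real.exp (2 * ε * |y - x| * (∑ i ∈ Finset.range n, (lam i : ℝ) + lam n)) =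
        Real.exp (2 * ε * |y - x| * ((∑ i ∈ Finset.range n, lam i : ℤ) : ℝ)) * Real.exp (2 * ε * q) := by
      rw [← Real.exp_add, hq]
      congr 1
      push_cast
      ring
    rw [h5]
    calc RR lam u ε n y * (1 + ε * XX lam u n y) ≤
          (RR lam u ε n x * Real.exp (2 * ε * |y - x| * ((∑ i ∈ Finset.range n, lam i : ℤ) : ℝ))) *
          ((1 + ε * XX lam u n x) * Real.exp (2 * ε * q)) :=
          mul_le_mul ih h4 h3' (by positivity)
      _ = _ := by ring

theorem RR_tail (hu : ‖u‖ ≤ 1) (hε : 0 ≤ ε) (hε1 : ε ≤ 1) (n t : ℕ) (x : ℝ) :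
    RR lam u ε (n + t) x ≤ RR lam u ε n x * (1 + ε) ^ t := by
  induction t with
  | zero => simp
  | succ t ih =>
    have h0 := RR_nonneg (lam := lam) hu hε hε1 n x
    have h0' := RR_nonneg (lam := lam) hu hε hε1 (n + t) x
    have h2 := XX_abs (lam := lam) hu (n + t) x
    rw [abs_le] at h2
    rw [← add_assoc]
    simp only [RR]
    have h3 : 1 + ε * XX lam u (n + t) x ≤ 1 + ε := by nlinarith [h2.2]
    calc RR lam u ε (n + t) x * (1 + ε * XX lam u (n + t) x) ≤ RR lam u ε (n + t) x * (1 + ε) :=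
          mul_le_mul_of_nonneg_left h3 h0'
      _ ≤ (RR lam u ε n x * (1 + ε) ^ t) * (1 + ε) := mul_le_mul_of_nonneg_right ih (by linarith)
      _ = _ := by rw [pow_succ]; ring

end Pool.Agent.TH653.MD
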