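import Mathlib
import Pool.Agent.TH653.MD.D1

set_option autoImplicit false

/-! # The measures of the Riesz products and their limits -/

namespace Pool.Agent.TH653.MD

open Real MeasureTheory Pool.Agent.TH653.MC Filter Topology
open scoped ENNReal

/-- subsequential limits of probability measures carried by a compact set -/
theorem exists_limit (P : ℕ → Measure ℝ) (hP1 : ∀ N, IsProbabilityMeasure (P N)) {K : Set ℝ}
    (hK : IsCompact K) (hP : ∀ N, P N Kᶜ = 0) : ∃ ν : Measure ℝ, IsProbabilityMeasure ν ∧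
    (∀ (G : Set ℝ) (C : ℝ≥0∞), IsOpen G → (∀ᶠ N in atTop, P N G ≤ C) → ν G ≤ C) ∧
    (∀ (f : BoundedContinuousFunction ℝ ℝ) (L : ℝ), (∀ᶠ N in atTop, L ≤ ∫ x, f x ∂(P N)) →
      L ≤ ∫ x, f x ∂ν) := by
  obtain ⟨Q, hQ⟩ : ∃ Q : ℕ → ProbabilityMeasure ℝ, ∀ N, ((Q N : ProbabilityMeasure ℝ) : Measure ℝ) = P N :=
    ⟨fun N => ⟨P N, hP1 N⟩, fun N => rfl⟩
  have htight : IsTightMeasureSet {((μ : ProbabilityMeasure ℝ) : Measure ℝ) | μ ∈ Set.range Q} := by
    rw [isTightMeasureSet_iff_exists_isCompact_measure_compl_le]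
    intro ε _
    refine ⟨K, hK, ?_⟩
    rintro μ ⟨ν, ⟨N, rfl⟩, rfl⟩
    rw [hQ, hP]
    exact zero_le
  have hcomp := isCompact_closure_of_isTightMeasureSet htight
  obtain ⟨𝒰, h𝒰⟩ : ∃ 𝒰 : Ultrafilter ℕ, (𝒰 : Filter ℕ) ≤ atTop := ⟨hyperfilter ℕ, Nat.hyperfilter_le_atTop⟩
  obtain ⟨ν, _, hν⟩ := hcomp.ultrafilter_le_nhds (𝒰.map Q) (by
    rw [le_principal_iff]
    have : Set.range Q ∈ (𝒰.map Q : Filter (ProbabilityMeasure ℝ)) := by
      rw [Ultrafilter.coe_map]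
      exact Filter.range_mem_map
    exact mem_of_superset this subset_closure)
  have hlim : Tendsto Q 𝒰 (𝓝 ν) := by
    rw [Ultrafilter.coe_map] at hν
    exact hν
  refine ⟨(ν : Measure ℝ), inferInstance, ?_, ?_⟩
  · intro G C hG hC
    refine (ProbabilityMeasure.le_liminf_measure_open_of_tendsto hlim hG).trans ?_
    have h1 : ∀ᶠ N in (𝒰 : Filter ℕ), ((Q N : ProbabilityMeasure ℝ) : Measure ℝ) G ≤ C := by
      filter_upwards [h𝒰 hC] with N hN
      rw [hQ]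
      exact hN
    exact Filter.liminf_le_of_frequently_le' h1.frequently
  · intro f L hL
    have h1 := (ProbabilityMeasure.tendsto_iff_forall_integral_tendsto.1 hlim) f
    refine ge_of_tendsto h1 ?_
    filter_upwards [h𝒰 hL] with N hN
    rw [hQ]
    exact hN

variable {lam : ℕ → ℤ} {u : ℂ} {ε : ℝ}

/-- the measures with the Riesz products as densities -/
noncomputable def mN (lam : ℕ → ℤ) (u : ℂ) (ε : ℝ) (N : ℕ) : Measure ℝ :=
  (volume.restrict (Set.Ioc 0 (2 * π))).withDensity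
    (fun θ => ((Real.toNNReal (RR lam u ε N θ / (2 * π)) : NNReal) : ℝ≥0∞))

theorem mN_meas (N : ℕ) : Measurable (fun θ => Real.toNNReal (RR lam u ε N θ / (2 * π))) :=
  ((RR_cont N).div_const _).measurable.real_toNNReal

theorem lint_RR {a b : ℝ} (hab : a ≤ b) {f : ℝ → ℝ} (hf : Continuous f) (h0 : ∀ θ, 0 ≤ f θ) :
    ∫⁻ θ in Set.Ioc a b, ((Real.toNNReal (f θ / (2 * π)) : NNReal) : ℝ≥0∞) =
      ENNReal.ofReal ((2 * π)⁻¹ * ∫ θ in a..b, f θ) := by
  have hpi := Real.pi_pos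
  rw [intervalIntegral.integral_of_le hab, ← integral_const_mul, ofReal_integral_eq_lintegral_ofReal]
  · apply lintegral_congr
    intro θ
    rw [ENNReal.ofReal]
    congr 3
    rw [div_eq_inv_mul]
  · exact ((hf.integrableOn_Icc (μ := volume) (a := a) (b := b)).mono_set Set.Ioc_subset_Icc_self).const_mul _
  · exact Eventually.of_forall (fun θ => mul_nonneg (by positivity) (h0 θ))

theorem mN_prob (hl : ∀ i, 0 ≤ lam i) (hlac : ∀ l, 2 * ∑ i ∈ Finset.range l, lam i < lam l)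
    (hu : ‖u‖ ≤ 1) (hε : 0 ≤ ε) (hε1 : ε ≤ 1) (N : ℕ) : IsProbabilityMeasure (mN lam u ε N) := by
  have hpi := Real.pi_pos
  constructor
  unfold mN
  rw [withDensity_apply _ MeasurableSet.univ, Measure.restrict_univ,
    lint_RR (by positivity) (RR_cont N) (fun θ => RR_nonneg hu hε hε1 N θ), int_RR hl hlac hu hε]
  rw [inv_mul_cancel₀ (by positivity), ENNReal.ofReal_one]

theorem mN_compl (N : ℕ) : mN lam u ε N (Set.Icc 0 (2 * π))ᶜ = 0 := by
  unfold mN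
  rw [withDensity_apply _ measurableSet_Icc.compl, Measure.restrict_restrict measurableSet_Icc.compl]
  have : (Set.Icc 0 (2 * π))ᶜ ∩ Set.Ioc 0 (2 * π) = ∅ :=
    Set.eq_empty_iff_forall_notMem.2 (fun x hx => hx.1 ⟨hx.2.1.le, hx.2.2⟩)
  rw [this]
  simp

theorem mN_integral (hu : ‖u‖ ≤ 1) (hε : 0 ≤ ε) (hε1 : ε ≤ 1) {f : ℝ → ℝ} (N : ℕ) :
    ∫ x, f x ∂(mN lam u ε N) = (2 * π)⁻¹ * ∫ θ in (0 : ℝ)..2 * π, RR lam u ε N θ * f θ := by
  have hpi := Real.pi_pos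
  unfold mN
  rw [integral_withDensity_eq_integral_smul (mN_meas N),
    intervalIntegral.integral_of_le (by positivity), ← integral_const_mul]
  apply integral_congr_ae
  refine Eventually.of_forall (fun θ => ?_)
  simp only
  rw [NNReal.smul_def, Real.coe_toNNReal _ (div_nonneg (RR_nonneg hu hε hε1 N θ) (by positivity)),
    smul_eq_mul, div_eq_inv_mul, mul_assoc]

theorem mN_Ioo (hu : ‖u‖ ≤ 1) (hε : 0 ≤ ε) (hε1 : ε ≤ 1) {a b : ℝ} (hab : a ≤ b) (N : ℕ) :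
    mN lam u ε N (Set.Ioo a b) ≤ ENNReal.ofReal ((2 * π)⁻¹ * ∫ θ in a..b, RR lam u ε N θ) := by
  unfold mN
  rw [withDensity_apply _ measurableSet_Ioo, Measure.restrict_restrict measurableSet_Ioo,
    ← lint_RR hab (RR_cont N) (fun θ => RR_nonneg hu hε hε1 N θ)]
  apply lintegral_mono_set
  intro x hx
  exact ⟨hx.1.1, hx.1.2.le⟩

theorem mN_large (hl : ∀ i, 0 ≤ lam i) (hlac : ∀ l, 2 * ∑ i ∈ Finset.range l, lam i < lam l)
    (hu : ‖u‖ ≤ 1) (hε : 0 ≤ ε) (hε1 : ε ≤ 1) {Y : ℝ} (hY : 0 < Y) {n N : ℕ} (hnN : n ≤ N) :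
    mN lam u ε N {θ | Y < RR lam u ε n θ} ≤ ENNReal.ofReal ((1 + ε ^ 2) ^ n / Y) := by
  have hpi := Real.pi_pos
  have hm : MeasurableSet {θ | Y < RR lam u ε n θ} := measurableSet_lt measurable_const (RR_cont n).measurable
  unfold mN
  rw [withDensity_apply _ hm, Measure.restrict_restrict hm]
  have h1 : ∫⁻ θ in {θ | Y < RR lam u ε n θ} ∩ Set.Ioc 0 (2 * π),
      ((Real.toNNReal (RR lam u ε N θ / (2 * π)) : NNReal) : ℝ≥0∞) ≤
      ∫⁻ θ in {θ | Y < RR lam u ε n θ} ∩ Set.Ioc 0 (2 * π),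
      ((Real.toNNReal ((RR lam u ε N θ * RR lam u ε n θ / Y) / (2 * π)) : NNReal) : ℝ≥0∞) := by
    apply setLIntegral_mono' (hm.inter measurableSet_Ioc)
    intro θ hθ
    have h2 : Y < RR lam u ε n θ := hθ.1
    have h3 := RR_nonneg (lam := lam) hu hε hε1 N θ
    apply ENNReal.coe_le_coe.2
    apply Real.toNNReal_le_toNNReal
    apply div_le_div_of_nonneg_right _ (by positivity)
    rw [le_div_iff₀ hY]
    exact mul_le_mul_of_nonneg_left h2.le h3
  refine h1.trans ?_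
  have h2 : ∫⁻ θ in {θ | Y < RR lam u ε n θ} ∩ Set.Ioc 0 (2 * π),
      ((Real.toNNReal ((RR lam u ε N θ * RR lam u ε n θ / Y) / (2 * π)) : NNReal) : ℝ≥0∞) ≤
      ∫⁻ θ in Set.Ioc 0 (2 * π),
      ((Real.toNNReal ((RR lam u ε N θ * RR lam u ε n θ / Y) / (2 * π)) : NNReal) : ℝ≥0∞) :=
    lintegral_mono_set Set.inter_subset_right
  refine h2.trans ?_
  rw [lint_RR (f := fun θ => RR lam u ε N θ * RR lam u ε n θ / Y) (by positivity)
    (((RR_cont N).mul (RR_cont n)).div_const Y)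
    (fun θ => div_nonneg (mul_nonneg (RR_nonneg hu hε hε1 N θ) (RR_nonneg hu hε hε1 n θ)) hY.le)]
  apply ENNReal.ofReal_le_ofReal
  rw [intervalIntegral.integral_div, int_RR_mul hl hlac hu hε hnN]
  have h3 := int_RR_sq (n := n) hl hlac hu hε
  rw [inv_mul_eq_div, div_div, div_le_div_iff₀ (by positivity) hY]
  calc (∫ θ in (0 : ℝ)..2 * π, RR lam u ε n θ * RR lam u ε n θ) * Y ≤
        (2 * π * (1 + ε ^ 2) ^ n) * Y := mul_le_mul_of_nonneg_right h3 hY.le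
    _ = (1 + ε ^ 2) ^ n * (Y * (2 * π)) := by ring

/-- the limit measure -/
theorem exists_nu (hl : ∀ i, 0 ≤ lam i) (hlac : ∀ l, 2 * ∑ i ∈ Finset.range l, lam i < lam l)
    (hu : ‖u‖ ≤ 1) (hε : 0 ≤ ε) (hε1 : ε ≤ 1) : ∃ ν : Measure ℝ, IsProbabilityMeasure ν ∧
    ν (Set.Icc 0 (2 * π))ᶜ = 0 ∧
    (∀ (a b : ℝ) (C : ℝ), a ≤ b → (∀ᶠ N in atTop, (2 * π)⁻¹ * ∫ θ in a..b, RR lam u ε N θ ≤ C) →
      ν (Set.Ioo a b) ≤ ENNReal.ofReal C) ∧
    (∀ (n : ℕ) (Y : ℝ), 0 < Y → ν {θ | Y < RR lam u ε n θ} ≤ ENNReal.ofReal ((1 + ε ^ 2) ^ n / Y)) ∧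
    (∀ (f : ℝ → ℝ) (L M : ℝ), Continuous f → (∀ θ, |f θ| ≤ M) →
      (∀ᶠ N in atTop, L ≤ (2 * π)⁻¹ * ∫ θ in (0 : ℝ)..2 * π, RR lam u ε N θ * f θ) →
      L ≤ ∫ x, f x ∂ν) := by
  obtain ⟨ν, hν, h1, h2⟩ := exists_limit (mN lam u ε) (fun N => mN_prob hl hlac hu hε hε1 N)
    (isCompact_Icc (a := (0 : ℝ)) (b := 2 * π)) (fun N => mN_compl N)
  refine ⟨ν, hν, ?_, ?_, ?_, ?_⟩
  · have := h1 (Set.Icc 0 (2 * π))ᶜ 0 isClosed_Icc.isOpen_compl
      (Eventually.of_forall (fun N => (mN_compl N).le))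
    exact le_antisymm this zero_le
  · intro a b C hab hC
    apply h1 _ _ isOpen_Ioo
    filter_upwards [hC] with N hN
    exact (mN_Ioo hu hε hε1 hab N).trans (ENNReal.ofReal_le_ofReal hN)
  · intro n Y hY
    apply h1 _ _ (isOpen_lt continuous_const (RR_cont n))
    filter_upwards [eventually_ge_atTop n] with N hN
    exact mN_large hl hlac hu hε hε1 hY hN
  · intro f L M hf hM hL
    have := h2 (BoundedContinuousFunction.ofNormedAddCommGroup f hf M (fun x => by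
      rw [Real.norm_eq_abs]; exact hM x)) L (by
        filter_upwards [hL] with N hN
        simp only [BoundedContinuousFunction.coe_ofNormedAddCommGroup]
        rw [mN_integral hu hε hε1]
        exact hN)
    simpa using this

end Pool.Agent.TH653.MD
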