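import Mathlib
import Pool.Agent.TH653.MD.D2

set_option autoImplicit false

/-! # Frostman bounds for the Riesz products -/

namespace Pool.Agent.TH653.MD

open Real MeasureTheory Pool.Agent.TH653.MC Filter Topology
open scoped ENNReal

variable {d k₀ K : ℕ} {u : ℂ} {ε : ℝ}

theorem sum_geo {q : ℕ → ℝ} (h0 : ∀ l, 0 ≤ q l) (h : ∀ l, q (l + 1) ≤ q l / 2) {n N : ℕ}
    (hnN : n ≤ N) : ∑ l ∈ Finset.Ico n N, q l ≤ 2 * q n := by
  have : ∑ l ∈ Finset.Ico n N, q l ≤ 2 * q n - 2 * q N := by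
    induction N, hnN using Nat.le_induction with
    | base => simp
    | succ N hN ih =>
      rw [Finset.sum_Ico_succ_top hN]
      have := h N
      linarith
  linarith [h0 N]

theorem four_le_pow (hd : 2 ≤ d) (hK : 2 ≤ K) : (4 : ℝ) ≤ (d : ℝ) ^ K := by
  have hd2 : (2 : ℝ) ≤ d := by exact_mod_cast hd
  calc (4 : ℝ) = 2 ^ 2 := by norm_num
    _ ≤ (d : ℝ) ^ 2 := pow_le_pow_left₀ (by norm_num) hd2 2
    _ ≤ (d : ℝ) ^ K := pow_le_pow_right₀ (by linarith) hK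

theorem tail_sum (hd : 2 ≤ d) (hK : 2 ≤ K) (hε : 0 ≤ ε) (hε1 : ε ≤ 1) {n N : ℕ} (hnN : n ≤ N) :
    ∑ l ∈ Finset.Ico n N, ε * ((1 + ε) ^ l * (4 / (lamd d k₀ K l : ℝ))) ≤
      8 * ε * ((1 + ε) ^ n / (d : ℝ) ^ (k₀ + K * n)) := by
  have hd2 : (2 : ℝ) ≤ d := by exact_mod_cast hd
  have hd0 : (0 : ℝ) < d := by linarith
  have h4 := four_le_pow hd hK
  have h1 : ∀ l ∈ Finset.Ico n N, ε * ((1 + ε) ^ l * (4 / (lamd d k₀ K l : ℝ))) ≤
      4 * ε * ((1 + ε) ^ l / (d : ℝ) ^ (k₀ + K * l)) := by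
    intro l _
    have e1 : (d : ℝ) ^ (k₀ + K * l) ≤ (lamd d k₀ K l : ℝ) := by exact_mod_cast lamd_ge hd l
    have e0 : (0 : ℝ) < (d : ℝ) ^ (k₀ + K * l) := by positivity
    have e2 : 4 / (lamd d k₀ K l : ℝ) ≤ 4 / (d : ℝ) ^ (k₀ + K * l) :=
      div_le_div_of_nonneg_left (by norm_num) e0 e1
    calc ε * ((1 + ε) ^ l * (4 / (lamd d k₀ K l : ℝ))) ≤
          ε * ((1 + ε) ^ l * (4 / (d : ℝ) ^ (k₀ + K * l))) := by
          apply mul_le_mul_of_nonneg_left _ hε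
          exact mul_le_mul_of_nonneg_left e2 (by positivity)
      _ = 4 * ε * ((1 + ε) ^ l / (d : ℝ) ^ (k₀ + K * l)) := by ring
  have h2 := sum_geo (q := fun l => (1 + ε) ^ l / (d : ℝ) ^ (k₀ + K * l)) (fun l => by positivity)
    (fun l => by
      have e0 : (0 : ℝ) < (d : ℝ) ^ (k₀ + K * l) := by positivity
      have e1 : (d : ℝ) ^ (k₀ + K * (l + 1)) = (d : ℝ) ^ (k₀ + K * l) * (d : ℝ) ^ K := by
        rw [← pow_add]
        congr 1
        ring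
      rw [e1, pow_succ, div_div, div_le_div_iff₀ (by positivity) (by positivity)]
      have e2 : (1 + ε) * 2 ≤ (d : ℝ) ^ K := by linarith
      calc (1 + ε) ^ l * (1 + ε) * ((d : ℝ) ^ (k₀ + K * l) * 2) =
            ((1 + ε) ^ l * (d : ℝ) ^ (k₀ + K * l)) * ((1 + ε) * 2) := by ring
        _ ≤ ((1 + ε) ^ l * (d : ℝ) ^ (k₀ + K * l)) * (d : ℝ) ^ K :=
            mul_le_mul_of_nonneg_left e2 (by positivity)
        _ = _ := by ring) hnN
  refine (Finset.sum_le_sum h1).trans ?_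
  rw [← Finset.mul_sum]
  calc 4 * ε * ∑ l ∈ Finset.Ico n N, (1 + ε) ^ l / (d : ℝ) ^ (k₀ + K * l) ≤
        4 * ε * (2 * ((1 + ε) ^ n / (d : ℝ) ^ (k₀ + K * n))) :=
        mul_le_mul_of_nonneg_left h2 (by positivity)
    _ = _ := by ring

theorem one_add_pow_le_exp (hε : 0 ≤ ε) (n : ℕ) : (1 + ε) ^ n ≤ Real.exp (ε * n) := by
  have h1 := Real.add_one_le_exp ε
  calc (1 + ε) ^ n ≤ (Real.exp ε) ^ n := pow_le_pow_left₀ (by linarith) (by linarith) n
    _ = Real.exp (ε * n) := by rw [← Real.exp_nat_mul, mul_comm]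

/-- the Frostman bound at a point where the products grow slowly -/
theorem frost_finite (hd : 2 ≤ d) (hK : 2 ≤ K) (hu : ‖u‖ ≤ 1) (hε : 0 ≤ ε) (hε1 : ε ≤ 1 / 4)
    {M : ℕ} {θ : ℝ}
    (hθ : ∀ n, M ≤ n → RR (lamd d k₀ K) u ε n θ ≤ Real.exp (2 * ε ^ 2 * n)) {ℓ : ℝ} (hℓ : 0 < ℓ)
    (hℓM : ℓ * (d : ℝ) ^ (k₀ + K * M) ≤ 1) :
    ∀ᶠ N in atTop, (2 * π)⁻¹ * ∫ x in (θ - ℓ / 2)..(θ + ℓ / 2), RR (lamd d k₀ K) u ε N x ≤
      (Real.exp 2 + 8 * (d : ℝ) ^ K) * ℓ ^ (1 - 6 * ε ^ 2) := by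
  have hd2 : (2 : ℝ) ≤ d := by exact_mod_cast hd
  have hd0 : (0 : ℝ) < d := by linarith
  have h4 := four_le_pow hd hK
  obtain ⟨y, hy⟩ : ∃ y : ℝ, y = (d : ℝ) ^ K := ⟨_, rfl⟩
  rw [← hy] at h4 ⊢
  have hdk0 : (0 : ℝ) < (d : ℝ) ^ k₀ := by positivity
  have hpow : ∀ l : ℕ, (d : ℝ) ^ (k₀ + K * l) = (d : ℝ) ^ k₀ * y ^ l := by
    intro l
    rw [pow_add, pow_mul, hy]
  have hX1 : 1 ≤ 1 / (ℓ * (d : ℝ) ^ k₀) := by
    rw [one_le_div (by positivity)]
    refine le_trans ?_ hℓM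
    apply mul_le_mul_of_nonneg_left _ hℓ.le
    exact pow_le_pow_right₀ (by linarith) (by omega)
  obtain ⟨n, hn1, hn2⟩ := exists_nat_pow_near hX1 (show 1 < y by linarith)
  rw [le_div_iff₀ (by positivity)] at hn1
  rw [div_lt_iff₀ (by positivity)] at hn2
  obtain ⟨xn, hxn⟩ : ∃ xn : ℝ, xn = (d : ℝ) ^ (k₀ + K * n) := ⟨_, rfl⟩
  have hxn0 : 0 < xn := by rw [hxn]; positivity
  have hx1 : ℓ * xn ≤ 1 := by rw [hxn, hpow]; linarith
  have hx2 : 1 < ℓ * xn * y := by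
    rw [hxn, hpow]
    calc (1 : ℝ) < y ^ (n + 1) * (ℓ * (d : ℝ) ^ k₀) := hn2
      _ = ℓ * ((d : ℝ) ^ k₀ * y ^ n) * y := by rw [pow_succ]; ring
  have hnM : M ≤ n := by
    by_contra h
    push Not at h
    have e1 : (d : ℝ) ^ (k₀ + K * (n + 1)) ≤ (d : ℝ) ^ (k₀ + K * M) := by
      apply pow_le_pow_right₀ (by linarith)
      have : K * (n + 1) ≤ K * M := Nat.mul_le_mul_left K h
      omega
    have e2 : (d : ℝ) ^ (k₀ + K * (n + 1)) = xn * y := by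
      rw [hpow, hxn, hpow, pow_succ]
      ring
    rw [e2] at e1
    have e3 := mul_le_mul_of_nonneg_left e1 hℓ.le
    linarith
  obtain ⟨t, ht⟩ : ∃ t : ℕ, t = ⌈4 * ε * n⌉₊ := ⟨_, rfl⟩
  have hn0 : (0 : ℝ) ≤ n := Nat.cast_nonneg n
  have ht1 : 4 * ε * n ≤ t := by rw [ht]; exact Nat.le_ceil _
  have ht2 : (t : ℝ) < 4 * ε * n + 1 := by rw [ht]; exact Nat.ceil_lt_add_one (by positivity)
  have ht0 : (0 : ℝ) ≤ t := Nat.cast_nonneg t
  -- the first part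
  have hsum : 2 * ((∑ i ∈ Finset.range n, lamd d k₀ K i : ℤ) : ℝ) ≤ xn := by
    have := (lamd_sum (k₀ := k₀) hd hK n).le
    rw [hxn]
    exact_mod_cast this
  have hsum0 : 0 ≤ ((∑ i ∈ Finset.range n, lamd d k₀ K i : ℤ) : ℝ) := by
    exact_mod_cast Finset.sum_nonneg (fun i _ => lamd_pos hd i)
  have hE : (0 : ℝ) < Real.exp (6 * ε ^ 2 * n) := Real.exp_pos _
  have hptw : ∀ x ∈ Set.Icc (θ - ℓ / 2) (θ + ℓ / 2), RR (lamd d k₀ K) u ε (n + t) x ≤
      Real.exp 2 * Real.exp (6 * ε ^ 2 * n) := by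
    intro x hx
    have e1 := RR_tail (lam := lamd d k₀ K) hu hε (by linarith : ε ≤ 1) n t x
    have e2 := RR_reg (lam := lamd d k₀ K) (lamd_pos hd) hu hε (by linarith : ε ≤ 1 / 2) n θ x
    have e3 := hθ n hnM
    have e4 : |x - θ| ≤ ℓ / 2 := by
      rw [abs_le]
      constructor <;> linarith [hx.1, hx.2]
    have e5 : 2 * ε * |x - θ| * ((∑ i ∈ Finset.range n, lamd d k₀ K i : ℤ) : ℝ) ≤ 1 := by
      calc 2 * ε * |x - θ| * ((∑ i ∈ Finset.range n, lamd d k₀ K i : ℤ) : ℝ) ≤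
            2 * ε * (ℓ / 2) * ((∑ i ∈ Finset.range n, lamd d k₀ K i : ℤ) : ℝ) := by
            apply mul_le_mul_of_nonneg_right _ hsum0
            exact mul_le_mul_of_nonneg_left e4 (by positivity)
        _ = ε * ℓ * (2 * ((∑ i ∈ Finset.range n, lamd d k₀ K i : ℤ) : ℝ)) / 2 := by ring
        _ ≤ ε * ℓ * xn / 2 := by
            apply div_le_div_of_nonneg_right _ (by norm_num)
            exact mul_le_mul_of_nonneg_left hsum (by positivity)
        _ ≤ 1 := by nlinarith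
    have e6 := one_add_pow_le_exp hε t
    have e7 : ε * (t : ℝ) ≤ 4 * ε ^ 2 * n + 1 := by nlinarith
    have e8 := RR_nonneg (lam := lamd d k₀ K) hu hε (by linarith : ε ≤ 1) n θ
    calc RR (lamd d k₀ K) u ε (n + t) x ≤ RR (lamd d k₀ K) u ε n x * (1 + ε) ^ t := e1
      _ ≤ (RR (lamd d k₀ K) u ε n θ * Real.exp (2 * ε * |x - θ| *
            ((∑ i ∈ Finset.range n, lamd d k₀ K i : ℤ) : ℝ))) * Real.exp (ε * t) :=
          mul_le_mul e2 e6 (by positivity) (by positivity)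
      _ ≤ (Real.exp (2 * ε ^ 2 * n) * Real.exp 1) * Real.exp (4 * ε ^ 2 * n + 1) := by
          apply mul_le_mul _ (Real.exp_le_exp.2 e7) (by positivity) (by positivity)
          exact mul_le_mul e3 (Real.exp_le_exp.2 e5) (by positivity) (by positivity)
      _ = Real.exp 2 * Real.exp (6 * ε ^ 2 * n) := by
          rw [← Real.exp_add, ← Real.exp_add, ← Real.exp_add]
          congr 1
          ring
  have hab : θ - ℓ / 2 ≤ θ + ℓ / 2 := by linarith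
  have hfirst : ∫ x in (θ - ℓ / 2)..(θ + ℓ / 2), RR (lamd d k₀ K) u ε (n + t) x ≤
      ℓ * (Real.exp 2 * Real.exp (6 * ε ^ 2 * n)) := by
    have e1 := intervalIntegral.integral_mono_on hab
      ((RR_cont (lam := lamd d k₀ K) (u := u) (ε := ε) (n + t)).intervalIntegrable (μ := volume) _ _)
      (intervalIntegrable_const (μ := volume) (c := Real.exp 2 * Real.exp (6 * ε ^ 2 * n))) hptw
    rw [intervalIntegral.integral_const, smul_eq_mul] at e1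
    refine e1.trans (le_of_eq ?_)
    ring
  -- the second part
  have hsecond : 8 * ε * ((1 + ε) ^ (n + t) / (d : ℝ) ^ (k₀ + K * (n + t))) ≤ 8 * (ℓ * y) := by
    have e1 := one_add_pow_le_exp hε (n + t)
    have e2 : (d : ℝ) ^ (k₀ + K * (n + t)) = xn * y ^ t := by
      rw [hpow, hxn, hpow, pow_add]
      ring
    have e3 : Real.exp (ε * ((n + t : ℕ) : ℝ)) ≤ y ^ t := by
      have f1 : Real.exp 1 ≤ y := by
        have := Real.exp_one_lt_d9
        linarith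
      calc Real.exp (ε * ((n + t : ℕ) : ℝ)) ≤ Real.exp (t * 1) := by
            apply Real.exp_le_exp.2
            push_cast
            nlinarith
        _ = (Real.exp 1) ^ t := Real.exp_nat_mul 1 t
        _ ≤ y ^ t := pow_le_pow_left₀ (Real.exp_pos 1).le f1 t
    have hyt : 0 < y ^ t := by
      have : 0 < y := by linarith
      positivity
    have e4 : (1 + ε) ^ (n + t) / (d : ℝ) ^ (k₀ + K * (n + t)) ≤ ℓ * y := by
      rw [e2, div_le_iff₀ (by positivity)]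
      calc (1 + ε) ^ (n + t) ≤ y ^ t := e1.trans e3
        _ = 1 * y ^ t := (one_mul _).symm
        _ ≤ (ℓ * xn * y) * y ^ t := mul_le_mul_of_nonneg_right hx2.le hyt.le
        _ = ℓ * y * (xn * y ^ t) := by ring
    have e5 : 0 ≤ (1 + ε) ^ (n + t) / (d : ℝ) ^ (k₀ + K * (n + t)) := by positivity
    nlinarith
  -- `n ≤ log (1 / ℓ)`
  have hℓn : Real.exp (6 * ε ^ 2 * n) * ℓ ≤ ℓ ^ (1 - 6 * ε ^ 2) := by
    have e1 : Real.exp n * ℓ ≤ 1 := by
      have f1 : Real.exp (n : ℝ) ≤ y ^ n := by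
        have f2 : Real.exp 1 ≤ y := by
          have := Real.exp_one_lt_d9
          linarith
        calc Real.exp (n : ℝ) = Real.exp (n * 1) := by rw [mul_one]
          _ = (Real.exp 1) ^ n := Real.exp_nat_mul 1 n
          _ ≤ y ^ n := pow_le_pow_left₀ (Real.exp_pos 1).le f2 n
      have f3 : y ^ n ≤ xn := by
        rw [hxn, hpow]
        have : 1 ≤ (d : ℝ) ^ k₀ := one_le_pow₀ (by linarith)
        have : 0 ≤ y ^ n := by
          have : 0 < y := by linarith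
          positivity
        nlinarith
      calc Real.exp n * ℓ ≤ xn * ℓ := mul_le_mul_of_nonneg_right (f1.trans f3) hℓ.le
        _ ≤ 1 := by linarith
    have e2 : Real.log ℓ ≤ -n := by
      rw [Real.log_le_iff_le_exp hℓ, Real.exp_neg, inv_eq_one_div, le_div_iff₀ (Real.exp_pos _)]
      linarith
    rw [Real.rpow_def_of_pos hℓ]
    calc Real.exp (6 * ε ^ 2 * n) * ℓ = Real.exp (6 * ε ^ 2 * n) * Real.exp (Real.log ℓ) := by
          rw [Real.exp_log hℓ]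
      _ = Real.exp (6 * ε ^ 2 * n + Real.log ℓ) := (Real.exp_add _ _).symm
      _ ≤ Real.exp (Real.log ℓ * (1 - 6 * ε ^ 2)) := by
          apply Real.exp_le_exp.2
          nlinarith [sq_nonneg ε]
  filter_upwards [eventually_ge_atTop (n + t)] with N hN
  have hg := int_RR_growth (a := θ - ℓ / 2) (b := θ + ℓ / 2) (lam := lamd d k₀ K) (lamd_pos hd)
    (lamd_lac hd hK) hu hε hN
  have ht' := tail_sum (k₀ := k₀) hd hK hε (by linarith : ε ≤ 1) hN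
  have hy0 : 0 < y := by linarith
  have hE1 : 1 ≤ Real.exp (6 * ε ^ 2 * n) := Real.one_le_exp (by positivity)
  have htot : ∫ x in (θ - ℓ / 2)..(θ + ℓ / 2), RR (lamd d k₀ K) u ε N x ≤
      (Real.exp 2 + 8 * y) * (Real.exp (6 * ε ^ 2 * n) * ℓ) := by
    have e1 : 8 * (ℓ * y) ≤ 8 * (ℓ * y) * Real.exp (6 * ε ^ 2 * n) :=
      le_mul_of_one_le_right (by positivity) hE1
    calc _ ≤ ℓ * (Real.exp 2 * Real.exp (6 * ε ^ 2 * n)) + 8 * (ℓ * y) := by linarith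
      _ ≤ ℓ * (Real.exp 2 * Real.exp (6 * ε ^ 2 * n)) + 8 * (ℓ * y) * Real.exp (6 * ε ^ 2 * n) := by
          linarith
      _ = _ := by ring
  have hpi := Real.pi_gt_three
  have hZ : 0 ≤ (Real.exp 2 + 8 * y) * ℓ ^ (1 - 6 * ε ^ 2) := by positivity
  have h5 : ∫ x in (θ - ℓ / 2)..(θ + ℓ / 2), RR (lamd d k₀ K) u ε N x ≤
      (Real.exp 2 + 8 * y) * ℓ ^ (1 - 6 * ε ^ 2) :=
    htot.trans (mul_le_mul_of_nonneg_left hℓn (by positivity))
  calc (2 * π)⁻¹ * ∫ x in (θ - ℓ / 2)..(θ + ℓ / 2), RR (lamd d k₀ K) u ε N x ≤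
        (2 * π)⁻¹ * ((Real.exp 2 + 8 * y) * ℓ ^ (1 - 6 * ε ^ 2)) :=
        mul_le_mul_of_nonneg_left h5 (by positivity)
    _ ≤ 1 * ((Real.exp 2 + 8 * y) * ℓ ^ (1 - 6 * ε ^ 2)) := by
        apply mul_le_mul_of_nonneg_right _ hZ
        rw [inv_le_one₀ (by positivity)]
        linarith
    _ = _ := one_mul _

/-- a Frostman measure bounds the dimension from below -/
theorem dim_of_frost {ν : Measure ℝ} {T : Set ℝ} (hT : MeasurableSet T) {C σ ℓ₀ : ℝ} (hC : 0 < C)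
    (hσ : 0 < σ) (hℓ₀ : 0 < ℓ₀)
    (hF : ∀ θ ∈ T, ∀ ℓ : ℝ, 0 < ℓ → ℓ ≤ ℓ₀ →
      ν (Set.Ioo (θ - ℓ / 2) (θ + ℓ / 2)) ≤ ENNReal.ofReal (C * ℓ ^ σ)) (hν : ν T ≠ 0) :
    ENNReal.ofReal σ ≤ dimH T := by
  obtain ⟨c, hc⟩ : ∃ c : ℝ≥0∞, c = ENNReal.ofReal (C * 2 ^ σ) := ⟨_, rfl⟩
  have hc0 : c ≠ 0 := by
    rw [hc]
    have : 0 < C * 2 ^ σ := by positivity
    simp [ENNReal.ofReal_eq_zero, this]
  have hct : c ≠ ⊤ := by rw [hc]; exact ENNReal.ofReal_ne_top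
  have key : ∀ S : Set ℝ, Metric.ediam S ≤ ENNReal.ofReal (ℓ₀ / 4) →
      (c⁻¹ • ν.restrict T) S ≤ Metric.ediam S ^ σ := by
    intro S hS
    rw [Measure.smul_apply, Measure.restrict_apply' hT, smul_eq_mul]
    rcases Set.eq_empty_or_nonempty (S ∩ T) with he | ⟨θ, hθS, hθT⟩
    · rw [he]
      simp
    have hfin : Metric.ediam S ≠ ⊤ := ne_top_of_le_ne_top ENNReal.ofReal_ne_top hS
    obtain ⟨D, hD⟩ : ∃ D : ℝ, D = (Metric.ediam S).toReal := ⟨_, rfl⟩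
    have hD0 : 0 ≤ D := by rw [hD]; exact ENNReal.toReal_nonneg
    have hDe : Metric.ediam S = ENNReal.ofReal D := by rw [hD, ENNReal.ofReal_toReal hfin]
    have hD1 : D ≤ ℓ₀ / 4 := by
      rw [hDe] at hS
      exact (ENNReal.ofReal_le_ofReal_iff (by positivity)).1 hS
    have h1 : ∀ ℓ : ℝ, 2 * D < ℓ → ℓ ≤ ℓ₀ → ν (S ∩ T) ≤ ENNReal.ofReal (C * ℓ ^ σ) := by
      intro ℓ h2 h3
      refine le_trans (measure_mono ?_) (hF θ hθT ℓ (by linarith) h3)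
      rintro x ⟨hx, -⟩
      have h4 : edist x θ ≤ Metric.ediam S := Metric.edist_le_ediam_of_mem hx hθS
      rw [hDe, edist_dist, ENNReal.ofReal_le_ofReal_iff hD0, Real.dist_eq, abs_le] at h4
      constructor <;> linarith [h4.1, h4.2]
    have h2 : ν (S ∩ T) ≤ ENNReal.ofReal (C * (2 * D) ^ σ) := by
      have h3 : Tendsto (fun ℓ : ℝ => ENNReal.ofReal (C * ℓ ^ σ)) (𝓝[>] (2 * D))
          (𝓝 (ENNReal.ofReal (C * (2 * D) ^ σ))) := by
        apply ENNReal.tendsto_ofReal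
        apply Tendsto.const_mul
        exact ((Real.continuousAt_rpow_const (2 * D) σ (Or.inr hσ.le)).tendsto).mono_left nhdsWithin_le_nhds
      apply ge_of_tendsto h3
      have h4 : Set.Ioc (2 * D) ℓ₀ ∈ 𝓝[>] (2 * D) := Ioc_mem_nhdsGT (by linarith)
      filter_upwards [h4] with ℓ hℓ
      exact h1 ℓ hℓ.1 hℓ.2
    have h3 : ENNReal.ofReal (C * (2 * D) ^ σ) = c * Metric.ediam S ^ σ := by
      rw [hc, hDe, ENNReal.ofReal_rpow_of_nonneg hD0 hσ.le, ← ENNReal.ofReal_mul (by positivity),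
        Real.mul_rpow (by norm_num) hD0]
      congr 1
      ring
    rw [h3] at h2
    calc c⁻¹ * ν (S ∩ T) ≤ c⁻¹ * (c * Metric.ediam S ^ σ) := by gcongr
      _ = Metric.ediam S ^ σ := by
          rw [← mul_assoc, ENNReal.inv_mul_cancel hc0 hct, one_mul]
  have h1 := Measure.le_hausdorffMeasure σ (c⁻¹ • ν.restrict T) (ENNReal.ofReal (ℓ₀ / 4))
    (by
      rw [ENNReal.ofReal_pos]
      positivity) key
  have h2 := h1 T
  rw [Measure.smul_apply, Measure.restrict_apply' hT, Set.inter_self, smul_eq_mul] at h2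
  have h3 : Measure.hausdorffMeasure σ T ≠ 0 := by
    intro h0
    rw [h0] at h2
    have : c⁻¹ * ν T ≠ 0 := mul_ne_zero (ENNReal.inv_ne_zero.2 hct) hν
    exact this (le_antisymm h2 (by simp))
  have h4 := le_dimH_of_hausdorffMeasure_ne_zero (d := Real.toNNReal σ) (s := T) (by
    rw [Real.coe_toNNReal _ hσ.le]
    exact h3)
  exact h4

end Pool.Agent.TH653.MD
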