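import Mathlib
import Pool.Agent.TH653.MC.C16
import Pool.Agent.TH653.MD.D3

set_option autoImplicit false

/-! # Growth along the Riesz products -/

namespace Pool.Agent.TH653.MD

open Complex Set Topology Filter Metric MeasureTheory N62a1eb23 Pool.Agent.H712R2 Pool.Agent.H713R2
open Pool.Agent.TH653.MB Pool.Agent.TH653.MC Real

variable {d : ℕ} {β : ℂ → ℂ}

theorem ww_le_one {c : ℝ} (hc : 0 < c) {N : ℕ} (hN : 1 ≤ N) (m : ℤ) : ww c N m ≤ 1 := by
  unfold ww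
  have : (0 : ℝ) ≤ (dZ N m : ℝ) := by exact_mod_cast dZ_nonneg hN m
  exact Real.rpow_le_one_of_one_le_of_nonpos (by linarith) (by linarith)

theorem JJ_main2 (hd : 2 ≤ d) {C δ c : ℝ} (hC : 0 < C) (hδ0 : 0 < δ) {B : ℂ → ℂ}
    (hB : DifferentiableOn ℂ B (ball 0 1))
    (hdec : ∀ n m : ℕ, 1 ≤ n → 1 ≤ m → d ^ n ≤ 2 * m → m < d ^ (n + 1) - 1 →
      ‖tc B m‖ ≤ C * (δ ^ n + ∑ j ∈ Finset.range n, δ ^ (n - j) * ww c (d ^ (j + 1)) (m : ℤ)))
    {ρ : ℝ} (hρ : 0 < ρ) (hρ1 : ρ < 1) {k₀ K : ℕ} (hk₀ : 1 ≤ k₀) (hK : 2 ≤ K) {u : ℂ} (hu : ‖u‖ ≤ 1)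
    {ε : ℝ} (hε : 0 ≤ ε) (ι : ℕ) {M : ℕ} (hM : lamd d k₀ K ι = (M : ℤ)) :
    ‖JJ (lamd d k₀ K) u ε (fun θ => B (circleMap 0 ρ θ)) ι (lamd d k₀ K ι)‖ ≤
      2 * π * ρ ^ (M / 2) * (TT (lamd d k₀ K) ε ι (fun m => C * (δ ^ (k₀ + K * ι) +
        ∑ j ∈ Finset.range (k₀ + K * ι), δ ^ (k₀ + K * ι - j) * ww c (d ^ (j + 1)) m))
          (lamd d k₀ K ι)) := by
  have hd2 : (2 : ℤ) ≤ d := by exact_mod_cast hd
  have hpi := Real.pi_pos
  have hF : Continuous fun θ : ℝ => B (circleMap 0 ρ θ) := by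
    apply hB.continuousOn.comp_continuous (continuous_circleMap 0 ρ)
    intro θ
    rw [mem_ball_zero_iff, norm_circleMap_zero, abs_of_pos hρ]
    exact hρ1
  have hbd : ∀ k, |k - lamd d k₀ K ι| ≤ ∑ i ∈ Finset.range ι, lamd d k₀ K i →
      ‖JJ (lamd d k₀ K) u ε (fun θ => B (circleMap 0 ρ θ)) 0 k‖ ≤
      2 * π * ρ ^ (M / 2) * (C * (δ ^ (k₀ + K * ι) +
        ∑ j ∈ Finset.range (k₀ + K * ι), δ ^ (k₀ + K * ι - j) * ww c (d ^ (j + 1)) k)) := by
    intro k hk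
    have hs := lamd_sum (k₀ := k₀) hd hK ι
    have hlam : lamd d k₀ K ι = (d - 1) * d ^ (k₀ + K * ι) := rfl
    have hx2 : (2 : ℤ) ≤ (d : ℤ) ^ (k₀ + K * ι) := by
      calc (2 : ℤ) ≤ d := hd2
        _ = (d : ℤ) ^ 1 := (pow_one _).symm
        _ ≤ (d : ℤ) ^ (k₀ + K * ι) := pow_le_pow_right₀ (by linarith) (by omega)
    have hx1 : (d : ℤ) ^ (k₀ + K * ι + 1) = d * d ^ (k₀ + K * ι) := pow_succ' _ _
    obtain ⟨x, hx⟩ : ∃ x, x = (d : ℤ) ^ (k₀ + K * ι) := ⟨_, rfl⟩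
    rw [← hx] at hs hlam hx2 hx1
    have hxM : x ≤ M := by
      rw [← hM, hlam]
      nlinarith
    have hk' := hk
    rw [hM, abs_le] at hk'
    rw [abs_le, hlam] at hk
    have b0 : (M : ℤ) ≤ 2 * k := by linarith [hk'.1]
    have b1 : x ≤ 2 * k := by nlinarith [hk.1]
    have b2 : 2 * k ≤ 2 * (d * x) - 3 := by nlinarith [hk.2]
    obtain ⟨m, hm⟩ : ∃ m : ℕ, k = (m : ℤ) := ⟨k.toNat, by omega⟩
    rw [hm] at b0 b1 b2 ⊢
    rw [JJ_nat hB hρ hρ1, norm_mul]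
    have e1 : ‖(2 * π : ℂ)‖ = 2 * π := by
      rw [norm_mul, Complex.norm_ofNat, Complex.norm_real, Real.norm_of_nonneg hpi.le]
    rw [e1, mul_assoc (2 * π) (ρ ^ (M / 2))]
    apply mul_le_mul_of_nonneg_left _ (by positivity)
    have e3 := hdec (k₀ + K * ι) m (by omega) (by
      by_contra h0
      have : m = 0 := by omega
      rw [this] at b1
      simp only [Nat.cast_zero, mul_zero] at b1
      linarith) (by
      have : ((d ^ (k₀ + K * ι) : ℕ) : ℤ) ≤ ((2 * m : ℕ) : ℤ) := by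
        push_cast
        rw [← hx]
        exact b1
      exact_mod_cast this) (by
      have h3 : ((m : ℕ) : ℤ) + 1 < ((d ^ (k₀ + K * ι + 1) : ℕ) : ℤ) := by
        push_cast
        rw [hx1]
        omega
      have h4 : m + 1 < d ^ (k₀ + K * ι + 1) := by exact_mod_cast h3
      omega)
    rw [norm_mul, norm_pow, Complex.norm_real, Real.norm_of_nonneg hρ.le, mul_comm]
    apply mul_le_mul _ e3 (norm_nonneg _) (by positivity)
    apply pow_le_pow_of_le_one hρ.le hρ1.le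
    omega
  have hmain := JJ_diff (lam := lamd d k₀ K) (u := u) (ε := ε) (lamd_pos hd) hu hε hF
    (w := fun m => 2 * π * ρ ^ (M / 2) * (C * (δ ^ (k₀ + K * ι) +
        ∑ j ∈ Finset.range (k₀ + K * ι), δ ^ (k₀ + K * ι - j) * ww c (d ^ (j + 1)) m)))
    ι (lamd d k₀ K ι) hbd
  have h0 := hbd (lamd d k₀ K ι) (by
    rw [sub_self, abs_zero]
    exact Finset.sum_nonneg (fun i _ => lamd_pos hd i))
  have h4 := norm_add_le (JJ (lamd d k₀ K) u ε (fun θ => B (circleMap 0 ρ θ)) ι (lamd d k₀ K ι) -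
    JJ (lamd d k₀ K) u ε (fun θ => B (circleMap 0 ρ θ)) 0 (lamd d k₀ K ι))
    (JJ (lamd d k₀ K) u ε (fun θ => B (circleMap 0 ρ θ)) 0 (lamd d k₀ K ι))
  rw [sub_add_cancel] at h4
  rw [TT_smul] at hmain
  linarith

theorem exp_pow_bound {x y : ℝ} (hx : 1 ≤ x) (hy : 0 < y) {M : ℕ} (hM : 2 ≤ M) (hyM : y ≤ M) :
    (1 - 1 / (2 * x)) ^ (M / 2) ≤ 8 * (x / y) := by
  have hx0 : 0 < x := by linarith
  have h0 : 0 ≤ 1 - 1 / (2 * x) := by
    have : 1 / (2 * x) ≤ 1 := by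
      rw [div_le_one (by positivity)]
      linarith
    linarith
  have h1 : 1 - 1 / (2 * x) ≤ Real.exp (-(1 / (2 * x))) := by
    have := Real.add_one_le_exp (-(1 / (2 * x)))
    linarith
  have h2 : (M : ℝ) / 4 ≤ ((M / 2 : ℕ) : ℝ) := by
    have : M ≤ 4 * (M / 2) := by omega
    have : (M : ℝ) ≤ 4 * ((M / 2 : ℕ) : ℝ) := by exact_mod_cast this
    linarith
  have h3 : y / (8 * x) ≤ ((M / 2 : ℕ) : ℝ) * (1 / (2 * x)) := by
    have : y / (8 * x) = y / 4 * (1 / (2 * x)) := by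
      field_simp
      norm_num
    rw [this]
    apply mul_le_mul_of_nonneg_right _ (by positivity)
    linarith
  calc (1 - 1 / (2 * x)) ^ (M / 2) ≤ (Real.exp (-(1 / (2 * x)))) ^ (M / 2) :=
        pow_le_pow_left₀ h0 h1 _
    _ = Real.exp (-(((M / 2 : ℕ) : ℝ) * (1 / (2 * x)))) := by
        rw [← Real.exp_nat_mul]
        congr 1
        ring
    _ ≤ Real.exp (-(y / (8 * x))) := Real.exp_le_exp.2 (by linarith)
    _ ≤ 8 * (x / y) := by
        rw [Real.exp_neg]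
        have h4 := Real.add_one_le_exp (y / (8 * x))
        have h5 : 0 < y / (8 * x) := by positivity
        have h6 : (Real.exp (y / (8 * x)))⁻¹ ≤ (y / (8 * x))⁻¹ := inv_anti₀ h5 (by linarith)
        refine h6.trans (le_of_eq ?_)
        field_simp

theorem growth (hd : 2 ≤ d) (hβ : IsBeta d β) {B : ℂ → ℂ}
    (hB : DifferentiableOn ℂ B (ball 0 1)) (hB0 : B 0 = 0)
    (hBd : ∀ x ∈ ball (0 : ℂ) 1, deriv B x = logDeriv (qq β) x) :
    ∃ (c₁ C₆ ε₀ : ℝ) (k₀ K : ℕ), 0 < c₁ ∧ 0 < C₆ ∧ 0 < ε₀ ∧ ε₀ ≤ 1 / 4 ∧ 2 ≤ K ∧ 1 ≤ k₀ ∧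
      ∀ ε : ℝ, 0 < ε → ε ≤ ε₀ → ∀ p : ℂ, ‖p‖ = 1 → ∀ n N : ℕ, n ≤ N →
      c₁ * ε * n - C₆ ≤ (2 * π)⁻¹ * ∫ θ in (0 : ℝ)..2 * π, RR (lamd d k₀ K) (-p) ε N θ *
        (p * B (circleMap 0 (1 - 1 / (2 * (d : ℝ) ^ (k₀ + K * n))) θ)).re := by
  have hpi := Real.pi_pos
  have hd2 : (2 : ℝ) ≤ d := by exact_mod_cast hd
  have hd0 : (0 : ℝ) < d := by linarith
  obtain ⟨C, δ, c, hC, hδ0, hδ1, hc, hdec⟩ := decay_log hd hβ
  have hdec' := hdec B hBd
  obtain ⟨C', hC', hErr⟩ := TT_err hd hC hδ0 hδ1 hc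
  obtain ⟨K, hK, hKc⟩ := exists_K hd hc
  obtain ⟨κ₀, hκ₀⟩ : ∃ κ₀ : ℝ, κ₀ = ((d - 1 : ℕ) : ℝ) / (d : ℝ) ^ 2 := ⟨_, rfl⟩
  have hκ₀0 : 0 < κ₀ := by
    rw [hκ₀]
    have : (0 : ℝ) < ((d - 1 : ℕ) : ℝ) := by exact_mod_cast (show 0 < d - 1 by omega)
    positivity
  have hlim := log_coef_limit hd hβ hBd
  have hlim' : Tendsto (fun n => -(tc B ((d - 1) * d ^ n)).re) atTop (𝓝 κ₀) := by
    have h1 := ((Complex.continuous_re.tendsto _).comp hlim).neg
    refine (h1.congr fun n => rfl).trans (le_of_eq ?_)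
    congr 1
    rw [hκ₀, Complex.neg_re, neg_neg]
    have : (((d - 1 : ℕ) : ℂ) / (d : ℂ) ^ 2) = (((((d - 1 : ℕ) : ℝ) / (d : ℝ) ^ 2) : ℝ) : ℂ) := by
      push_cast
      rfl
    rw [this, Complex.ofReal_re]
  obtain ⟨n₀, hn₀⟩ := eventually_atTop.1 (hlim'.eventually (lt_mem_nhds (show κ₀ / 2 < κ₀ by linarith)))
  obtain ⟨k₀, hk₀⟩ : ∃ k₀, k₀ = max n₀ 1 := ⟨_, rfl⟩
  have hk₀1 : 1 ≤ k₀ := by rw [hk₀]; exact le_max_right _ _
  have hk₀n : n₀ ≤ k₀ := by rw [hk₀]; exact le_max_left _ _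
  obtain ⟨ε₀, hε₀⟩ : ∃ ε₀ : ℝ, ε₀ = min (min ((1 - δ) / 2) (κ₀ / (8 * C'))) (1 / 4) := ⟨_, rfl⟩
  have hε₀0 : 0 < ε₀ := by
    rw [hε₀]
    apply lt_min
    · apply lt_min
      · linarith
      · positivity
    · norm_num
  have hε₀1 : ε₀ ≤ (1 - δ) / 2 := by rw [hε₀]; exact (min_le_left _ _).trans (min_le_left _ _)
  have hε₀4 : ε₀ ≤ 1 / 4 := by rw [hε₀]; exact min_le_right _ _
  have hε₀2 : C' * ε₀ ≤ κ₀ / 8 := by
    have : ε₀ ≤ κ₀ / (8 * C') := by rw [hε₀]; exact (min_le_left _ _).trans (min_le_right _ _)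
    calc C' * ε₀ ≤ C' * (κ₀ / (8 * C')) := mul_le_mul_of_nonneg_left this hC'.le
      _ = κ₀ / 8 := by field_simp
  have h1δ : 0 < 1 - δ := by linarith
  obtain ⟨C₁₁, hC₁₁⟩ : ∃ C₁₁ : ℝ, C₁₁ = C * (1 + 1 / (1 - δ)) + C' := ⟨_, rfl⟩
  have hC₁₁0 : 0 < C₁₁ := by rw [hC₁₁]; positivity
  refine ⟨κ₀ / 16, 8 * C₁₁, ε₀, k₀, K, by positivity, by positivity, hε₀0, hε₀4, hK, hk₀1, ?_⟩
  intro ε hε0 hεε₀ p hp n N hnN
  obtain ⟨x, hx⟩ : ∃ x : ℝ, x = (d : ℝ) ^ (k₀ + K * n) := ⟨_, rfl⟩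
  rw [← hx]
  have hx2 : 2 ≤ x := by
    rw [hx]
    calc (2 : ℝ) ≤ d := hd2
      _ = (d : ℝ) ^ 1 := (pow_one _).symm
      _ ≤ (d : ℝ) ^ (k₀ + K * n) := pow_le_pow_right₀ (by linarith) (by omega)
  obtain ⟨ρ, hρd⟩ : ∃ ρ : ℝ, ρ = 1 - 1 / (2 * x) := ⟨_, rfl⟩
  rw [← hρd]
  have hx4 : 1 / (2 * x) ≤ 1 / 4 := by
    apply div_le_div_of_nonneg_left (by norm_num) (by norm_num)
    linarith
  have hx0 : 0 < 1 / (2 * x) := by positivity
  have hρ : 0 < ρ := by rw [hρd]; linarith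
  have hρ1 : ρ < 1 := by rw [hρd]; linarith
  have h1ρ : 0 < 1 - ρ := by linarith
  have hn1 : x * (1 - ρ) ≤ 1 / 2 := by
    have : 1 - ρ = 1 / (2 * x) := by rw [hρd]; ring
    rw [this]
    apply le_of_eq
    field_simp
  have hF : Continuous fun θ : ℝ => B (circleMap 0 ρ θ) := by
    apply hB.continuousOn.comp_continuous (continuous_circleMap 0 ρ)
    intro θ
    rw [mem_ball_zero_iff, norm_circleMap_zero, abs_of_pos hρ]
    exact hρ1
  obtain ⟨u, hu⟩ : ∃ u : ℂ, u = -p := ⟨_, rfl⟩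
  have hu1 : ‖u‖ = 1 := by rw [hu, norm_neg, hp]
  rw [← hu]
  obtain ⟨J, hJ⟩ : ∃ J : ℕ → ℂ, J = fun l => JJ (lamd d k₀ K) u ε (fun θ => B (circleMap 0 ρ θ)) l
    (lamd d k₀ K l) := ⟨_, rfl⟩
  have hMl : ∀ l, lamd d k₀ K l = (((d - 1) * d ^ (k₀ + K * l) : ℕ) : ℤ) := by
    intro l
    unfold lamd
    push_cast
    rw [Nat.cast_sub (by omega)]
    push_cast
    rfl
  -- the small frequencies
  have hsmall : ∀ l, l < n → 2 * π * (κ₀ / 8) ≤ -(J l).re := by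
    intro l hl
    have e1 := JJ_main hd hB hdec' hρ hρ1 hk₀1 hK hu1.le hε0.le l
    have e2 := hErr k₀ K hK hKc ε hε0.le (by linarith) l
    obtain ⟨M, hM⟩ : ∃ M : ℕ, M = (d - 1) * d ^ (k₀ + K * l) := ⟨_, rfl⟩
    have hMl' : lamd d k₀ K l = (M : ℤ) := by rw [hMl, hM]
    have e3 := JJ_nat hB hρ hρ1 (lamd d k₀ K) u ε M
    rw [← hMl'] at e3
    have e4 := hn₀ (k₀ + K * l) (by omega)
    rw [← hM] at e4
    have e5 : (1 : ℝ) / 2 ≤ ρ ^ M := by
      have a1 := one_add_mul_le_pow (a := -(1 - ρ)) (by linarith) M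
      have a2 : 1 + -(1 - ρ) = ρ := by ring
      rw [a2] at a1
      have a3 : (M : ℝ) ≤ x := by
        have : M ≤ d ^ (k₀ + K * n) := by
          calc M ≤ d * d ^ (k₀ + K * l) := by
                rw [hM]
                exact Nat.mul_le_mul_right _ (Nat.sub_le d 1)
            _ = d ^ (k₀ + K * l + 1) := (pow_succ' _ _).symm
            _ ≤ d ^ (k₀ + K * n) := by
                apply Nat.pow_le_pow_right (by omega)
                have : K * (l + 1) ≤ K * n := Nat.mul_le_mul_left K hl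
                rw [mul_add] at this
                omega
        rw [hx]
        exact_mod_cast this
      have a4 : (M : ℝ) * (1 - ρ) ≤ 1 / 2 :=
        (mul_le_mul_of_nonneg_right a3 h1ρ.le).trans hn1
      linarith
    have e6 : (JJ (lamd d k₀ K) u ε (fun θ => B (circleMap 0 ρ θ)) 0 (lamd d k₀ K l)).re =
        2 * π * ((tc B M).re * ρ ^ M) := by
      rw [e3]
      have : (2 * π * (tc B M * (ρ : ℂ) ^ M) : ℂ) = ((2 * π * ρ ^ M : ℝ) : ℂ) * tc B M := by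
        push_cast
        ring
      rw [this, Complex.re_ofReal_mul]
      ring
    have e7 := (Complex.abs_re_le_norm _).trans e1
    rw [Complex.sub_re, e6, abs_le] at e7
    have e8 : 2 * π * (κ₀ / 4) ≤ 2 * π * (-(tc B M).re * ρ ^ M) := by
      apply mul_le_mul_of_nonneg_left _ (by positivity)
      nlinarith
    have e9 : C' * ε ≤ κ₀ / 8 := (mul_le_mul_of_nonneg_left hεε₀ hC'.le).trans hε₀2
    have e10 := e7.2
    have e11 : TT (lamd d k₀ K) ε l (fun m => C * (δ ^ (k₀ + K * l) +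
      ∑ j ∈ Finset.range (k₀ + K * l), δ ^ (k₀ + K * l - j) * ww c (d ^ (j + 1)) m))
        (lamd d k₀ K l) - C * (δ ^ (k₀ + K * l) +
      ∑ j ∈ Finset.range (k₀ + K * l), δ ^ (k₀ + K * l - j) *
        ww c (d ^ (j + 1)) (lamd d k₀ K l)) ≤ κ₀ / 8 := by linarith
    have e12 := mul_le_mul_of_nonneg_left e11 (show 0 ≤ 2 * π by positivity)
    rw [hJ]
    simp only
    linarith
  -- the large frequencies
  have hlarge : ∀ l, ‖J l‖ ≤ 2 * π * C₁₁ * (8 * (x / (d : ℝ) ^ (k₀ + K * l))) := by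
    intro l
    obtain ⟨M, hM⟩ : ∃ M : ℕ, M = (d - 1) * d ^ (k₀ + K * l) := ⟨_, rfl⟩
    have hMl' : lamd d k₀ K l = (M : ℤ) := by rw [hMl, hM]
    have e1 := JJ_main2 hd hC hδ0 hB hdec' hρ hρ1 hk₀1 hK hu1.le hε0.le l hMl'
    have e2 := hErr k₀ K hK hKc ε hε0.le (by linarith) l
    have hdM : d ^ (k₀ + K * l) ≤ M := by
      rw [hM]
      exact Nat.le_mul_of_pos_left _ (by omega)
    have hM2 : 2 ≤ M := by
      refine le_trans ?_ hdM
      calc 2 ≤ d := hd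
        _ = d ^ 1 := (pow_one _).symm
        _ ≤ d ^ (k₀ + K * l) := Nat.pow_le_pow_right (by omega) (by omega)
    have e3 := exp_pow_bound (x := x) (y := (d : ℝ) ^ (k₀ + K * l)) (by linarith) (by positivity)
      (M := M) hM2 (by exact_mod_cast hdM)
    rw [← hρd] at e3
    have e4 : C * (δ ^ (k₀ + K * l) +
      ∑ j ∈ Finset.range (k₀ + K * l), δ ^ (k₀ + K * l - j) *
        ww c (d ^ (j + 1)) (lamd d k₀ K l)) ≤ C * (1 + 1 / (1 - δ)) := by
      apply mul_le_mul_of_nonneg_left _ hC.le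
      apply add_le_add (pow_le_one₀ hδ0.le hδ1.le)
      refine le_trans ?_ (geo_refl hδ0 hδ1 (k₀ + K * l))
      apply Finset.sum_le_sum
      intro j _
      exact mul_le_of_le_one_right (by positivity) (ww_le_one hc (Nat.one_le_pow _ _ (by omega)) _)
    have e5 : TT (lamd d k₀ K) ε l (fun m => C * (δ ^ (k₀ + K * l) +
      ∑ j ∈ Finset.range (k₀ + K * l), δ ^ (k₀ + K * l - j) * ww c (d ^ (j + 1)) m))
        (lamd d k₀ K l) ≤ C₁₁ := by
      have : C' * ε ≤ C' := mul_le_of_le_one_right hC'.le (by linarith)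
      rw [hC₁₁]
      linarith
    rw [hJ]
    simp only
    calc _ ≤ 2 * π * ρ ^ (M / 2) * (TT (lamd d k₀ K) ε l (fun m => C * (δ ^ (k₀ + K * l) +
      ∑ j ∈ Finset.range (k₀ + K * l), δ ^ (k₀ + K * l - j) * ww c (d ^ (j + 1)) m))
        (lamd d k₀ K l)) := e1
      _ ≤ 2 * π * ρ ^ (M / 2) * C₁₁ := mul_le_mul_of_nonneg_left e5 (by positivity)
      _ = 2 * π * C₁₁ * ρ ^ (M / 2) := by ring
      _ ≤ 2 * π * C₁₁ * (8 * (x / (d : ℝ) ^ (k₀ + K * l))) :=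
          mul_le_mul_of_nonneg_left e3 (by positivity)
  -- the mean
  have h1 := int_RR_re (lam := lamd d k₀ K) (u := u) (ε := ε) (p := p) hF N 0
  have h2 : ∫ θ in (0 : ℝ)..2 * π, RR (lamd d k₀ K) u ε N θ * (p * B (circleMap 0 ρ θ)).re =
      (p * JJ (lamd d k₀ K) u ε (fun θ => B (circleMap 0 ρ θ)) N 0).re := by
    rw [← h1]
    apply intervalIntegral.integral_congr
    intro θ _
    simp
  have hpu : p * (starRingEnd ℂ) u = -1 := by
    rw [hu, map_neg, mul_neg, Complex.mul_conj, Complex.normSq_eq_norm_sq, hp]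
    simp
  rw [h2, JJ_mean (lamd_pos hd) (lamd_lac hd hK) hu1.le hε0.le hF
    (fun k hk => JJ_neg hB hB0 hρ hρ1 _ u ε hk) N, Finset.mul_sum, Complex.re_sum]
  have h3 : ∀ l, (p * ((ε : ℂ) / 2 * ((starRingEnd ℂ) u *
      JJ (lamd d k₀ K) u ε (fun θ => B (circleMap 0 ρ θ)) l (lamd d k₀ K l)))).re =
      ε / 2 * (-(J l).re) := by
    intro l
    have e1 : p * ((ε : ℂ) / 2 * ((starRingEnd ℂ) u *
        JJ (lamd d k₀ K) u ε (fun θ => B (circleMap 0 ρ θ)) l (lamd d k₀ K l))) =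
        ((ε / 2 : ℝ) : ℂ) * (-(J l)) := by
      rw [hJ]
      simp only
      calc p * ((ε : ℂ) / 2 * ((starRingEnd ℂ) u *
        JJ (lamd d k₀ K) u ε (fun θ => B (circleMap 0 ρ θ)) l (lamd d k₀ K l))) =
        (p * (starRingEnd ℂ) u) * ((ε : ℂ) / 2) *
          JJ (lamd d k₀ K) u ε (fun θ => B (circleMap 0 ρ θ)) l (lamd d k₀ K l) := by ring
        _ = _ := by
            rw [hpu]
            push_cast
            ring
    rw [e1, Complex.re_ofReal_mul, Complex.neg_re]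
  simp only [h3]
  rw [Finset.range_eq_Ico, ← Finset.sum_Ico_consecutive _ (Nat.zero_le n) hnN]
  have h4 : (n : ℝ) * (ε / 2 * (2 * π * (κ₀ / 8))) ≤ ∑ l ∈ Finset.Ico 0 n, ε / 2 * (-(J l).re) := by
    have : ∑ _l ∈ Finset.Ico 0 n, ε / 2 * (2 * π * (κ₀ / 8)) ≤
        ∑ l ∈ Finset.Ico 0 n, ε / 2 * (-(J l).re) := by
      apply Finset.sum_le_sum
      intro l hl
      rw [Finset.mem_Ico] at hl
      exact mul_le_mul_of_nonneg_left (hsmall l hl.2) (by linarith)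
    rw [Finset.sum_const, Nat.card_Ico, nsmul_eq_mul, Nat.sub_zero] at this
    exact this
  have h5 : -(ε / 2 * (2 * π * C₁₁ * 16)) ≤ ∑ l ∈ Finset.Ico n N, ε / 2 * (-(J l).re) := by
    have e1 := sum_geo (q := fun l => 8 * (x / (d : ℝ) ^ (k₀ + K * l))) (fun l => by positivity)
      (fun l => by
        have e0 : (0 : ℝ) < (d : ℝ) ^ (k₀ + K * l) := by positivity
        have e1 : (d : ℝ) ^ (k₀ + K * (l + 1)) = (d : ℝ) ^ (k₀ + K * l) * (d : ℝ) ^ K := by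
          rw [← pow_add]
          congr 1
          ring
        have e2 := four_le_pow hd hK
        rw [e1]
        have e3 : x / ((d : ℝ) ^ (k₀ + K * l) * (d : ℝ) ^ K) ≤ x / ((d : ℝ) ^ (k₀ + K * l) * 2) := by
          apply div_le_div_of_nonneg_left (by linarith) (by positivity)
          exact mul_le_mul_of_nonneg_left (by linarith) e0.le
        calc 8 * (x / ((d : ℝ) ^ (k₀ + K * l) * (d : ℝ) ^ K)) ≤
              8 * (x / ((d : ℝ) ^ (k₀ + K * l) * 2)) := by linarith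
          _ = 8 * (x / (d : ℝ) ^ (k₀ + K * l)) / 2 := by
              field_simp) hnN
    have e2 : 2 * (8 * (x / (d : ℝ) ^ (k₀ + K * n))) = 16 := by
      rw [← hx, div_self (by linarith)]
      norm_num
    simp only [e2] at e1
    have e3 : ∀ l ∈ Finset.Ico n N, -(ε / 2 * (2 * π * C₁₁ * (8 * (x / (d : ℝ) ^ (k₀ + K * l))))) ≤
        ε / 2 * (-(J l).re) := by
      intro l _
      have f1 := hlarge l
      have f2 := (Complex.abs_re_le_norm (J l)).trans f1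
      rw [abs_le] at f2
      have f3 := mul_le_mul_of_nonneg_left f2.2 (show 0 ≤ ε / 2 by linarith)
      linarith
    have e4 := Finset.sum_le_sum e3
    rw [Finset.sum_neg_distrib, ← Finset.mul_sum, ← Finset.mul_sum] at e4
    refine le_trans ?_ e4
    apply neg_le_neg
    apply mul_le_mul_of_nonneg_left _ (by linarith)
    exact mul_le_mul_of_nonneg_left e1 (by positivity)
  have h6 : 2 * π * (κ₀ / 16 * ε * n - 8 * C₁₁) ≤
      ∑ l ∈ Finset.Ico 0 n, ε / 2 * (-(J l).re) + ∑ l ∈ Finset.Ico n N, ε / 2 * (-(J l).re) := by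
    have e1 : ε * (2 * π * C₁₁ * 8) ≤ 2 * π * C₁₁ * 8 :=
      mul_le_of_le_one_left (by positivity) (by linarith)
    have e2 : 2 * π * (κ₀ / 16 * ε * n - 8 * C₁₁) =
        (n : ℝ) * (ε / 2 * (2 * π * (κ₀ / 8))) - 2 * π * C₁₁ * 8 := by ring
    have e3 : -(ε / 2 * (2 * π * C₁₁ * 16)) = -(ε * (2 * π * C₁₁ * 8)) := by ring
    rw [e3] at h5
    linarith
  rw [inv_mul_eq_div, le_div_iff₀ (by positivity)]
  linarith

/-- a Bloch function grows at most logarithmically -/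
theorem log_growth {B : ℂ → ℂ} (hB : DifferentiableOn ℂ B (ball 0 1))
    (hBl : ∀ x ∈ ball (0 : ℂ) 1, ‖x * deriv B x‖ ≤ 4 / (1 - ‖x‖)) :
    ∃ C : ℝ, 0 < C ∧ ∀ ρ θ : ℝ, 1 / 2 ≤ ρ → ρ < 1 →
      ‖B (circleMap 0 ρ θ)‖ ≤ C + 8 * Real.log (1 / (1 - ρ)) := by
  obtain ⟨C, hC⟩ := (isCompact_closedBall (0 : ℂ) (1 / 2)).exists_bound_of_continuousOn
    (hB.continuousOn.mono (closedBall_subset_ball (by norm_num)))
  refine ⟨|C| + 1, by positivity, ?_⟩
  intro ρ θ hρ hρ1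
  have hmem : ∀ s : ℝ, 1 / 2 ≤ s → s < 1 → circleMap 0 s θ ∈ ball (0 : ℂ) 1 := by
    intro s h1 h2
    rw [mem_ball_zero_iff, norm_circleMap_zero, abs_of_pos (by linarith)]
    exact h2
  have hcm : ∀ s : ℝ, HasDerivAt (fun s : ℝ => circleMap 0 s θ) (Complex.exp (θ * I)) s := by
    intro s
    have h1 : (fun s : ℝ => circleMap 0 s θ) = fun s : ℝ => (s : ℂ) * Complex.exp (θ * I) := by
      funext s
      rw [circleMap_zero]
    rw [h1]
    have h2 := (Complex.ofRealCLM.hasDerivAt (x := s)).mul_const (Complex.exp (θ * I))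
    simpa using h2
  have hder : ∀ s : ℝ, 1 / 2 ≤ s → s < 1 → HasDerivAt (fun s : ℝ => B (circleMap 0 s θ))
      (Complex.exp (θ * I) * deriv B (circleMap 0 s θ)) s := by
    intro s h1 h2
    have h3 := (hB.differentiableAt (isOpen_ball.mem_nhds (hmem s h1 h2))).hasDerivAt
    have h4 := h3.scomp s (hcm s)
    exact h4.congr_deriv (smul_eq_mul _ _)
  have hΦ : ∀ s : ℝ, s < 1 → HasDerivAt (fun s : ℝ => |C| + 1 + 8 * (-Real.log (1 - s)))
      (8 / (1 - s)) s := by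
    intro s hs
    have h1 : HasDerivAt (fun s : ℝ => 1 - s) (-1) s := by
      simpa using (hasDerivAt_id s).const_sub 1
    have h2 := (h1.log (by linarith : 1 - s ≠ 0)).neg.const_mul 8 |>.const_add (|C| + 1)
    refine h2.congr_deriv ?_
    field_simp
  have h := image_norm_le_of_norm_deriv_right_le_deriv_boundary'
    (f := fun s : ℝ => B (circleMap 0 s θ))
    (f' := fun s : ℝ => Complex.exp (θ * I) * deriv B (circleMap 0 s θ)) (a := 1 / 2) (b := ρ)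
    (fun s hs => (hder s hs.1 (lt_of_le_of_lt hs.2 hρ1)).continuousAt.continuousWithinAt)
    (fun s hs => (hder s hs.1 (hs.2.trans hρ1)).hasDerivWithinAt)
    (B := fun s : ℝ => |C| + 1 + 8 * (-Real.log (1 - s))) (B' := fun s => 8 / (1 - s)) (by
      have h1 := hC (circleMap 0 (1 / 2) θ) (by
        rw [mem_closedBall_zero_iff, norm_circleMap_zero]
        norm_num [abs_le])
      have h2 : 0 ≤ -Real.log (1 - 1 / 2) := by
        rw [neg_nonneg]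
        exact Real.log_nonpos (by norm_num) (by norm_num)
      have h3 := le_abs_self C
      linarith)
    (fun s hs => (hΦ s (lt_of_le_of_lt hs.2 hρ1)).continuousAt.continuousWithinAt)
    (fun s hs => (hΦ s (hs.2.trans hρ1)).hasDerivWithinAt)
    (fun s hs => by
      have hs1 : s < 1 := hs.2.trans hρ1
      have hs0 : 0 < s := by linarith [hs.1]
      have h1 := hBl _ (hmem s hs.1 hs1)
      rw [norm_mul, norm_circleMap_zero, abs_of_pos hs0] at h1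
      rw [norm_mul, Complex.norm_exp_ofReal_mul_I, one_mul]
      have h2 : 0 < 1 - s := by linarith
      have h3 := norm_nonneg (deriv B (circleMap 0 s θ))
      rw [le_div_iff₀ h2] at h1 ⊢
      nlinarith [hs.1, mul_nonneg h3 h2.le])
    (right_mem_Icc.2 hρ)
  refine h.trans (le_of_eq ?_)
  rw [one_div, Real.log_inv]

end Pool.Agent.TH653.MD
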