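import Mathlib
import Pool.Agent.TH653.MD.D4

set_option autoImplicit false

/-! # The dimension of the set of angles with power growth -/

namespace Pool.Agent.TH653.MD

open Complex Set Topology Filter Metric MeasureTheory N62a1eb23 Pool.Agent.H712R2 Pool.Agent.H713R2
open Pool.Agent.TH653.MB Pool.Agent.TH653.MC Real

variable {d : ℕ} {β : ℂ → ℂ}

/-- if the means of functions with linear upper bounds grow linearly, then the functions
are linearly large infinitely often on a set of positive measure -/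
theorem io_pos {ν : Measure ℝ} [IsProbabilityMeasure ν] {g : ℕ → ℝ → ℝ} (hgc : ∀ n, Continuous (g n))
    {t M C₆ : ℝ} (ht : 0 < t) (hM : 0 < M) (hgM : ∀ n, 1 ≤ n → ∀ θ, |g n θ| ≤ M * n)
    (hmean : ∀ n, 2 * t * n - C₆ ≤ ∫ θ, g n θ ∂ν) :
    ν {θ | ∃ᶠ n in atTop, t * n ≤ g n θ} ≠ 0 := by
  intro h0
  obtain ⟨S, hS⟩ : ∃ S : ℕ → Set ℝ, S = fun m => ⋃ n ∈ Ici m, {θ | t * n ≤ g n θ} := ⟨_, rfl⟩
  have hSm : ∀ m, MeasurableSet (S m) := by
    intro m
    rw [hS]
    exact MeasurableSet.biUnion (to_countable _)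
      (fun n _ => (isClosed_le continuous_const (hgc n)).measurableSet)
  have hanti : Antitone S := by
    intro m m' hmm
    rw [hS]
    exact biUnion_subset_biUnion_left (Ici_subset_Ici.2 hmm)
  have hE : {θ | ∃ᶠ n in atTop, t * n ≤ g n θ} = ⋂ m, S m := by
    ext θ
    simp only [mem_ofPred_eq, mem_iInter, hS, mem_iUnion, mem_Ici, exists_prop, frequently_atTop]
  rw [hE] at h0
  have h1 := tendsto_measure_iInter_atTop (μ := ν) (fun m => (hSm m).nullMeasurableSet) hanti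
    ⟨0, measure_ne_top _ _⟩
  rw [h0] at h1
  have hη : (0 : ENNReal) < ENNReal.ofReal (t / (2 * M)) := by
    rw [ENNReal.ofReal_pos]
    positivity
  obtain ⟨m, hm⟩ := (h1.eventually (gt_mem_nhds hη)).exists
  have hm' : (ν (S m)).toReal ≤ t / (2 * M) := by
    simp only [Function.comp_apply] at hm
    exact ENNReal.toReal_le_of_le_ofReal (by positivity) hm.le
  obtain ⟨n, hn⟩ := exists_nat_gt (max (max (m : ℝ) 1) (2 * C₆ / t))
  have hnm : m ≤ n := by
    have : (m : ℝ) ≤ n := ((le_max_left _ _).trans (le_max_left _ _)).trans hn.le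
    exact_mod_cast this
  have hn1 : 1 ≤ n := by
    have : (1 : ℝ) ≤ n := ((le_max_right _ _).trans (le_max_left _ _)).trans hn.le
    exact_mod_cast this
  have hnC : 2 * C₆ / t < n := (le_max_right _ _).trans_lt hn
  rw [div_lt_iff₀ ht] at hnC
  have hn0 : (0 : ℝ) < n := by exact_mod_cast (show 0 < n by omega)
  have hint : ∫ θ, g n θ ∂ν ≤ t * n + M * n * (ν (S m)).toReal := by
    have e1 : Integrable (g n) ν :=
      Integrable.of_bound (hgc n).aestronglyMeasurable (M * n)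
        (Eventually.of_forall (fun θ => by rw [Real.norm_eq_abs]; exact hgM n hn1 θ))
    have e2 : Integrable (fun θ => t * n + (S m).indicator (fun _ => M * n) θ) ν :=
      (integrable_const _).add ((integrable_const _).indicator (hSm m))
    have e3 := integral_mono e1 e2 (fun θ => by
      simp only
      by_cases hθ : θ ∈ S m
      · rw [indicator_of_mem hθ]
        have := (abs_le.1 (hgM n hn1 θ)).2
        have : 0 < t * n := by positivity
        linarith
      · rw [indicator_of_notMem hθ, add_zero]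
        by_contra hc
        push Not at hc
        apply hθ
        rw [hS]
        simp only [mem_iUnion, mem_Ici, mem_ofPred_eq, exists_prop]
        exact ⟨n, hnm, hc.le⟩)
    rw [integral_add (integrable_const _) ((integrable_const _).indicator (hSm m)),
      integral_const, integral_indicator_const _ (hSm m)] at e3
    simp only [probReal_univ, smul_eq_mul, one_mul] at e3
    rw [measureReal_def] at e3
    linarith
  have h2 := hmean n
  have h3 : M * n * (ν (S m)).toReal ≤ t * n / 2 := by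
    calc M * n * (ν (S m)).toReal ≤ M * n * (t / (2 * M)) :=
          mul_le_mul_of_nonneg_left hm' (by positivity)
      _ = t * n / 2 := by field_simp
  nlinarith

theorem dim_disc (hd : 2 ≤ d) (hβ : IsBeta d β) {B : ℂ → ℂ}
    (hB : DifferentiableOn ℂ B (ball 0 1)) (hB0 : B 0 = 0)
    (hBd : ∀ x ∈ ball (0 : ℂ) 1, deriv B x = logDeriv (qq β) x) :
    ∃ c : ℝ, 0 < c ∧ ∀ p : ℂ, ‖p‖ = 1 → ∀ s : ℝ, 0 < s → s < 1 →
      ENNReal.ofReal (1 - s ^ 2) ≤ dimH {θ : ℝ | θ ∈ Icc 0 (2 * π) ∧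
        ∃ᶠ ρ in 𝓝[<] (1 : ℝ), c * s * Real.log (1 / (1 - ρ)) ≤ (p * B (circleMap 0 ρ θ)).re} := by
  have hd2 : (2 : ℝ) ≤ d := by exact_mod_cast hd
  have hd0 : (0 : ℝ) < d := by linarith
  obtain ⟨c₁, C₆, ε₀, k₀, K, hc₁, hC₆, hε₀, hε₀4, hK, hk₀, hgr⟩ := growth hd hβ hB hB0 hBd
  obtain ⟨C_B, hC_B, hlg⟩ := log_growth hB (fun x hx => by rw [hBd x hx]; exact qq_bloch hβ hx)
  obtain ⟨C₈, hC₈⟩ : ∃ C₈ : ℝ, C₈ = Real.log 2 + (k₀ + K) * Real.log d := ⟨_, rfl⟩
  have hl2 : 0 < Real.log 2 := Real.log_pos (by norm_num)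
  have hld : 0 < Real.log d := Real.log_pos (by linarith)
  have hC₈0 : 0 < C₈ := by rw [hC₈]; positivity
  refine ⟨c₁ * ε₀ / (2 * C₈), by positivity, ?_⟩
  intro p hp s hs0 hs1
  obtain ⟨ε, hε⟩ : ∃ ε : ℝ, ε = ε₀ * s := ⟨_, rfl⟩
  have hε0 : 0 < ε := by rw [hε]; positivity
  have hεε₀ : ε ≤ ε₀ := by rw [hε]; exact mul_le_of_le_one_right hε₀.le hs1.le
  have hε4 : ε ≤ 1 / 4 := by linarith
  have hεs : 6 * ε ^ 2 ≤ s ^ 2 := by
    rw [hε, mul_pow]
    have : ε₀ ^ 2 ≤ (1 / 4) ^ 2 := pow_le_pow_left₀ hε₀.le hε₀4 2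
    have hs2 : 0 < s ^ 2 := by positivity
    nlinarith
  have hu1 : ‖-p‖ ≤ 1 := by rw [norm_neg, hp]
  obtain ⟨ν, hν, hνK, hνI, hνR, hνf⟩ := exists_nu (lam := lamd d k₀ K) (lamd_pos hd)
    (lamd_lac hd hK) hu1 hε0.le (by linarith : ε ≤ 1)
  obtain ⟨x, hx⟩ : ∃ x : ℕ → ℝ, x = fun n => (d : ℝ) ^ (k₀ + K * n) := ⟨_, rfl⟩
  have hx2 : ∀ n, 2 ≤ x n := by
    intro n
    rw [hx]
    calc (2 : ℝ) ≤ d := hd2
      _ = (d : ℝ) ^ 1 := (pow_one _).symm
      _ ≤ (d : ℝ) ^ (k₀ + K * n) := pow_le_pow_right₀ (by linarith) (by omega)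
  obtain ⟨ρ, hρd⟩ : ∃ ρ : ℕ → ℝ, ρ = fun n => 1 - 1 / (2 * x n) := ⟨_, rfl⟩
  have h1ρ : ∀ n, 1 - ρ n = 1 / (2 * x n) := by
    intro n
    rw [hρd]
    ring
  have hx4 : ∀ n, 0 < 1 / (2 * x n) ∧ 1 / (2 * x n) ≤ 1 / 4 := by
    intro n
    have := hx2 n
    constructor
    · positivity
    · apply div_le_div_of_nonneg_left (by norm_num) (by norm_num)
      linarith
  have hρ34 : ∀ n, 3 / 4 ≤ ρ n ∧ ρ n < 1 := by
    intro n
    have h1 := h1ρ n
    have h2 := hx4 n
    constructor <;> linarith [h2.1, h2.2]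
  have hlog : ∀ n : ℕ, 1 ≤ n → Real.log (1 / (1 - ρ n)) ≤ C₈ * n := by
    intro n hn
    have hn1 : (1 : ℝ) ≤ n := by exact_mod_cast hn
    rw [h1ρ, one_div_one_div, Real.log_mul (by norm_num) (by linarith [hx2 n]), hx]
    simp only
    rw [Real.log_pow, hC₈]
    push_cast
    have e1 : 0 ≤ (k₀ : ℝ) := Nat.cast_nonneg _
    have e2 : 0 ≤ (K : ℝ) := Nat.cast_nonneg _
    nlinarith [mul_nonneg e1 hld.le, mul_nonneg e2 hld.le]
  obtain ⟨g, hg⟩ : ∃ g : ℕ → ℝ → ℝ, g = fun n θ => (p * B (circleMap 0 (ρ n) θ)).re := ⟨_, rfl⟩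
  have hgc : ∀ n, Continuous (g n) := by
    intro n
    rw [hg]
    apply Complex.continuous_re.comp
    apply continuous_const.mul
    apply hB.continuousOn.comp_continuous (continuous_circleMap 0 (ρ n))
    intro θ
    rw [mem_ball_zero_iff, norm_circleMap_zero, abs_of_pos (by linarith [(hρ34 n).1])]
    exact (hρ34 n).2
  have hgM : ∀ n, 1 ≤ n → ∀ θ, |g n θ| ≤ (C_B + 8 * C₈) * n := by
    intro n hn θ
    have hn1 : (1 : ℝ) ≤ n := by exact_mod_cast hn
    rw [hg]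
    simp only
    refine (Complex.abs_re_le_norm _).trans ?_
    rw [norm_mul, hp, one_mul]
    have e1 := hlg (ρ n) θ (by linarith [(hρ34 n).1]) (hρ34 n).2
    have e2 := hlog n hn
    nlinarith
  have hgb : ∀ n, ∀ θ, |g n θ| ≤ C_B + 8 * Real.log (1 / (1 - ρ n)) := by
    intro n θ
    rw [hg]
    simp only
    refine (Complex.abs_re_le_norm _).trans ?_
    rw [norm_mul, hp, one_mul]
    exact hlg (ρ n) θ (by linarith [(hρ34 n).1]) (hρ34 n).2
  obtain ⟨t, ht⟩ : ∃ t : ℝ, t = c₁ * ε / 2 := ⟨_, rfl⟩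
  have ht0 : 0 < t := by rw [ht]; positivity
  have hmean : ∀ n : ℕ, 2 * t * n - C₆ ≤ ∫ θ, g n θ ∂ν := by
    intro n
    apply hνf (g n) _ _ (hgc n) (hgb n)
    filter_upwards [eventually_ge_atTop n] with N hN
    have := hgr ε hε0 hεε₀ p hp n N hN
    refine le_trans (le_of_eq ?_) (this.trans (le_of_eq ?_))
    · rw [ht]
      ring
    · rw [hg, hρd, hx]
  have hEpos := io_pos hgc ht0 (show 0 < C_B + 8 * C₈ by positivity) hgM hmean
  obtain ⟨E, hE⟩ : ∃ E : Set ℝ, E = {θ | ∃ᶠ n in atTop, t * n ≤ g n θ} := ⟨_, rfl⟩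
  rw [← hE] at hEpos
  have hEm : MeasurableSet E := by
    have : E = ⋂ m : ℕ, ⋃ n ∈ Ici m, {θ | t * n ≤ g n θ} := by
      ext θ
      simp only [hE, mem_ofPred_eq, mem_iInter, mem_iUnion, mem_Ici, exists_prop, frequently_atTop]
    rw [this]
    apply MeasurableSet.iInter
    intro m
    exact MeasurableSet.biUnion (to_countable _)
      (fun n _ => (isClosed_le continuous_const (hgc n)).measurableSet)
  -- slow growth of the products
  obtain ⟨A, hA⟩ : ∃ A : ℕ → Set ℝ, A = fun M => ⋂ n ∈ Ici M,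
    {θ | RR (lamd d k₀ K) (-p) ε n θ ≤ Real.exp (2 * ε ^ 2 * n)} := ⟨_, rfl⟩
  have hAm : ∀ M, MeasurableSet (A M) := by
    intro M
    rw [hA]
    exact MeasurableSet.biInter (to_countable _)
      (fun n _ => (isClosed_le (RR_cont n) continuous_const).measurableSet)
  have hae : ∀ᵐ θ ∂ν, ∃ M, θ ∈ A M := by
    have h1 : (∑' n : ℕ, ν {θ | Real.exp (2 * ε ^ 2 * n) < RR (lamd d k₀ K) (-p) ε n θ}) ≠ ⊤ := by
      have h2 : ∀ n : ℕ, ν {θ | Real.exp (2 * ε ^ 2 * n) < RR (lamd d k₀ K) (-p) ε n θ} ≤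
          (ENNReal.ofReal (Real.exp (-ε ^ 2))) ^ n := by
        intro n
        refine (hνR n _ (Real.exp_pos _)).trans ?_
        rw [← ENNReal.ofReal_pow (Real.exp_pos _).le]
        apply ENNReal.ofReal_le_ofReal
        have e1 := one_add_pow_le_exp (ε := ε ^ 2) (by positivity) n
        rw [div_le_iff₀ (Real.exp_pos _), ← Real.exp_nat_mul, ← Real.exp_add]
        refine e1.trans (le_of_eq ?_)
        congr 1
        ring
      apply ne_top_of_le_ne_top _ (ENNReal.tsum_le_tsum h2)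
      rw [ENNReal.tsum_geometric]
      apply ENNReal.inv_ne_top.2
      have : ENNReal.ofReal (Real.exp (-ε ^ 2)) < 1 := by
        rw [← ENNReal.ofReal_one, ENNReal.ofReal_lt_ofReal_iff (by norm_num), Real.exp_lt_one_iff]
        have : 0 < ε ^ 2 := by positivity
        linarith
      exact (tsub_pos_of_lt this).ne'
    filter_upwards [ae_eventually_notMem h1] with θ hθ
    obtain ⟨M, hM⟩ := eventually_atTop.1 hθ
    refine ⟨M, ?_⟩
    rw [hA]
    simp only [mem_iInter, mem_Ici, mem_ofPred_eq]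
    intro n hn
    have := hM n hn
    simp only [mem_ofPred_eq, not_lt] at this
    exact this
  have hKae : ∀ᵐ θ ∂ν, θ ∈ Icc 0 (2 * π) := hνK
  obtain ⟨M, hM⟩ : ∃ M, ν (E ∩ A M ∩ Icc 0 (2 * π)) ≠ 0 := by
    by_contra hcon
    push Not at hcon
    apply hEpos
    have h1 := measure_iUnion_null hcon
    have h2 : ∀ᵐ θ ∂ν, θ ∉ E := by
      have h3 : ∀ᵐ θ ∂ν, θ ∉ ⋃ M, E ∩ A M ∩ Icc 0 (2 * π) := measure_eq_zero_iff_ae_notMem.1 h1
      filter_upwards [h3, hae, hKae] with θ h4 h5 h6 h7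
      obtain ⟨M, h8⟩ := h5
      exact h4 (mem_iUnion.2 ⟨M, ⟨h7, h8⟩, h6⟩)
    exact measure_eq_zero_iff_ae_notMem.2 h2
  have hσ : 0 < 1 - 6 * ε ^ 2 := by nlinarith
  have hdim := dim_of_frost (ν := ν) (T := E ∩ A M ∩ Icc 0 (2 * π))
    ((hEm.inter (hAm M)).inter measurableSet_Icc)
    (C := Real.exp 2 + 8 * (d : ℝ) ^ K) (σ := 1 - 6 * ε ^ 2) (ℓ₀ := 1 / x M) (by positivity) hσ
    (by have := hx2 M; positivity) (by
      intro θ hθ ℓ hℓ hℓM
      apply hνI _ _ _ (by linarith)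
      apply frost_finite (M := M) hd hK hu1 hε0.le hε4 _ hℓ _
      · intro n hn
        have h1 := hθ.1.2
        rw [hA] at h1
        simp only [mem_iInter, mem_Ici, mem_ofPred_eq] at h1
        exact h1 n hn
      · rw [le_div_iff₀ (by linarith [hx2 M]), hx] at hℓM
        exact hℓM) hM
  refine le_trans (ENNReal.ofReal_le_ofReal (by linarith)) (hdim.trans (dimH_mono ?_))
  rintro θ ⟨⟨hθE, -⟩, hθI⟩
  refine ⟨hθI, ?_⟩
  rw [hE] at hθE
  have hfr : ∃ᶠ n : ℕ in atTop, c₁ * ε₀ / (2 * C₈) * s * Real.log (1 / (1 - ρ n)) ≤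
      (p * B (circleMap 0 (ρ n) θ)).re := by
    have h1 := (hθE : ∃ᶠ n : ℕ in atTop, t * n ≤ g n θ).and_eventually (eventually_ge_atTop 1)
    refine h1.mono ?_
    rintro n ⟨h2, h3⟩
    have h4 := hlog n h3
    rw [hg] at h2
    simp only at h2
    refine le_trans ?_ h2
    calc c₁ * ε₀ / (2 * C₈) * s * Real.log (1 / (1 - ρ n)) ≤
          c₁ * ε₀ / (2 * C₈) * s * (C₈ * n) := mul_le_mul_of_nonneg_left h4 (by positivity)
      _ = t * n := by
          rw [ht, hε]
          field_simp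
  have htend : Tendsto ρ atTop (𝓝[<] (1 : ℝ)) := by
    rw [tendsto_nhdsWithin_iff]
    refine ⟨?_, Eventually.of_forall (fun n => (hρ34 n).2)⟩
    have h1 : Tendsto x atTop atTop := by
      rw [hx]
      have h2 : Tendsto (fun n : ℕ => k₀ + K * n) atTop atTop :=
        tendsto_atTop_mono (fun n => (Nat.le_mul_of_pos_left n (by omega : 0 < K)).trans
          (Nat.le_add_left _ _)) tendsto_id
      exact (tendsto_pow_atTop_atTop_of_one_lt (by linarith)).comp h2
    have h2 : Tendsto (fun n => 1 / (2 * x n)) atTop (𝓝 0) := by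
      simp only [one_div]
      exact tendsto_inv_atTop_zero.comp (h1.const_mul_atTop (by norm_num))
    have h3 := h2.const_sub 1
    rw [sub_zero] at h3
    rw [hρd]
    exact h3
  exact htend.frequently hfr

end Pool.Agent.TH653.MD
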