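import Mathlib
import Pool.Agent.TH653.MC.C17
import Pool.Agent.TH653.MD.D5

set_option autoImplicit false

/-! # The dimension of the set of external angles with power growth -/

namespace Pool.Agent.TH653.MD

open Complex Set Topology Filter Metric MeasureTheory N62a1eb23 Pool.Agent.H712R2 Pool.Agent.H713R2
open Pool.Agent.TH653.MB Pool.Agent.TH653.MC Real

theorem dim_angles {d : ℕ} (hd : 2 ≤ d) {ψ : ℂ → ℂ} (hψ : IsExteriorMap (multibrotSet d) ψ) :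
    ∃ a : ℕ → ℂ, a 0 = 0 ∧
      (∀ z : ℂ, 1 < ‖z‖ →
        Summable (fun m : ℕ => a m / z ^ m) ∧ exp (∑' m : ℕ, a m / z ^ m) = deriv ψ z) ∧
      ∃ c : ℝ, 0 < c ∧ ∀ s : ℝ, 0 < s → s < 1 →
        (∀ p : ℂ, ‖p‖ = 1 → ENNReal.ofReal (1 - s ^ 2) ≤ dimH {θ : ℝ | θ ∈ Icc 0 (2 * Real.pi) ∧
          ∃ᶠ r : ℝ in 𝓝[>] 1, c * s * Real.log (1 / (r - 1)) ≤
            (p * ∑' m : ℕ, a m / (r * exp (θ * I)) ^ m).re}) ∧
        ENNReal.ofReal (1 - s ^ 2) ≤ dimH {θ : ℝ | θ ∈ Icc 0 (2 * Real.pi) ∧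
          ∃ᶠ r : ℝ in 𝓝[>] 1, (1 / (r - 1)) ^ (c * s) ≤ ‖deriv ψ (r * exp (θ * I))‖} ∧
        ENNReal.ofReal (1 - s ^ 2) ≤ dimH {θ : ℝ | θ ∈ Icc 0 (2 * Real.pi) ∧
          ∃ᶠ r : ℝ in 𝓝[>] 1, ‖deriv ψ (r * exp (θ * I))‖ ≤ (r - 1) ^ (c * s)} := by
  obtain ⟨β, hβ⟩ := exists_beta hd
  obtain ⟨B, hB, hB0, hBe, hBd⟩ := exists_log hβ
  have hsum : ∀ z : ℂ, 1 < ‖z‖ → HasSum (fun m : ℕ => tc B m / z ^ m) (B z⁻¹) := by
    intro z hz
    have h1 := hasSum_tc hB (inv_mem_ball hz).1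
    refine h1.congr_fun ?_ |> id
    intro m
    rw [inv_pow, div_eq_mul_inv]
  have hts : ∀ z : ℂ, 1 < ‖z‖ → ∑' m : ℕ, tc B m / z ^ m = B z⁻¹ := fun z hz => (hsum z hz).tsum_eq
  obtain ⟨c, hc, hdim⟩ := dim_disc hd hβ hB hB0 hBd
  have hz : ∀ r θ : ℝ, 0 < r → ‖(r : ℂ) * exp (θ * I)‖ = r := by
    intro r θ hr
    rw [norm_mul, Complex.norm_exp_ofReal_mul_I, mul_one, Complex.norm_real, Real.norm_of_nonneg hr.le]
  have main : ∀ s : ℝ, 0 < s → s < 1 → ∀ p : ℂ, ‖p‖ = 1 →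
      ENNReal.ofReal (1 - s ^ 2) ≤ dimH {θ : ℝ | θ ∈ Icc 0 (2 * Real.pi) ∧
          ∃ᶠ r : ℝ in 𝓝[>] 1, c * s * Real.log (1 / (r - 1)) ≤
            (p * B (r * exp (θ * I))⁻¹).re} := by
    intro s hs0 hs1 p hp
    refine (hdim p hp s hs0 hs1).trans ?_
    have hiso : Isometry (fun θ : ℝ => 2 * Real.pi - θ) := by
      apply Isometry.of_dist_eq
      intro x y
      rw [Real.dist_eq, Real.dist_eq, ← abs_neg]
      congr 1
      ring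
    rw [← hiso.dimH_image]
    apply dimH_mono
    rintro _ ⟨θ, ⟨hθI, hθf⟩, rfl⟩
    refine ⟨⟨by linarith [hθI.2], by linarith [hθI.1]⟩, ?_⟩
    have htend : Tendsto (fun ρ : ℝ => ρ⁻¹) (𝓝[<] (1 : ℝ)) (𝓝[>] (1 : ℝ)) := by
      rw [tendsto_nhdsWithin_iff]
      constructor
      · have h1 : Tendsto (fun ρ : ℝ => ρ⁻¹) (𝓝 1) (𝓝 (1 : ℝ)⁻¹) :=
          (continuousAt_inv₀ one_ne_zero).tendsto
        rw [inv_one] at h1
        exact h1.mono_left nhdsWithin_le_nhds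
      · have h1 : Ioo (0 : ℝ) 1 ∈ 𝓝[<] (1 : ℝ) := Ioo_mem_nhdsLT (by norm_num)
        filter_upwards [h1] with ρ hρ
        exact (one_lt_inv₀ hρ.1).2 hρ.2
    apply htend.frequently
    have h1 : Ioo (0 : ℝ) 1 ∈ 𝓝[<] (1 : ℝ) := Ioo_mem_nhdsLT (by norm_num)
    refine (hθf.and_eventually h1).mono ?_
    rintro ρ ⟨h2, h3, h4⟩
    have h5 : ((((ρ⁻¹ : ℝ) : ℂ)) * exp (((2 * Real.pi - θ : ℝ) : ℂ) * I))⁻¹ = circleMap 0 ρ θ := by
      rw [circleMap_zero, mul_inv, ← Complex.exp_neg, Complex.ofReal_inv, inv_inv]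
      congr 1
      have : -(((2 * Real.pi - θ : ℝ) : ℂ) * I) = θ * I - 2 * Real.pi * I := by
        push_cast
        ring
      rw [this, Complex.exp_sub, Complex.exp_two_pi_mul_I, div_one]
    rw [h5]
    refine le_trans ?_ h2
    apply mul_le_mul_of_nonneg_left _ (by positivity)
    have h6 : 0 < 1 - ρ := by linarith
    have h7 : 1 - ρ ≤ ρ⁻¹ - 1 := by
      have : ρ⁻¹ - 1 = (1 - ρ) / ρ := by field_simp
      rw [this, le_div_iff₀ h3]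
      nlinarith
    apply Real.log_le_log (by
      have : 0 < ρ⁻¹ - 1 := by linarith
      positivity)
    exact one_div_le_one_div_of_le h6 h7
  refine ⟨tc B, ?_, fun z hz => ⟨(hsum z hz).summable, ?_⟩, c, hc, ?_⟩
  · rw [tc_zero, hB0]
  · rw [hts z hz, hBe _ (inv_mem_ball hz).1, (hasDerivAt_psi hβ hψ hz).deriv]
  intro s hs0 hs1
  have hev : ∀ᶠ r : ℝ in 𝓝[>] 1, 1 < r := self_mem_nhdsWithin
  have hnorm : ∀ r θ : ℝ, 1 < r → ‖deriv ψ (r * exp (θ * I))‖ =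
      Real.exp (B (r * exp (θ * I))⁻¹).re := by
    intro r θ hr
    have hz1 : 1 < ‖(r : ℂ) * exp (θ * I)‖ := by rw [hz r θ (by linarith)]; exact hr
    rw [(hasDerivAt_psi hβ hψ hz1).deriv, ← hBe _ (inv_mem_ball hz1).1, Complex.norm_exp]
  refine ⟨?_, ?_, ?_⟩
  · intro p hp
    refine (main s hs0 hs1 p hp).trans (dimH_mono ?_)
    rintro θ ⟨h1, h2⟩
    refine ⟨h1, (h2.and_eventually hev).mono ?_⟩
    rintro r ⟨h3, h4⟩
    have hz1 : 1 < ‖(r : ℂ) * exp (θ * I)‖ := by rw [hz r θ (by linarith)]; exact h4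
    rw [hts _ hz1]
    exact h3
  · refine (main s hs0 hs1 1 norm_one).trans (dimH_mono ?_)
    rintro θ ⟨h1, h2⟩
    refine ⟨h1, (h2.and_eventually hev).mono ?_⟩
    rintro r ⟨h3, h4⟩
    have h5 : 0 < r - 1 := by linarith
    rw [one_mul] at h3
    rw [hnorm r θ h4, Real.rpow_def_of_pos (by positivity)]
    apply Real.exp_le_exp.2
    linarith
  · refine (main s hs0 hs1 (-1) (by rw [norm_neg, norm_one])).trans (dimH_mono ?_)
    rintro θ ⟨h1, h2⟩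
    refine ⟨h1, (h2.and_eventually hev).mono ?_⟩
    rintro r ⟨h3, h4⟩
    have h5 : 0 < r - 1 := by linarith
    rw [neg_one_mul, Complex.neg_re, one_div, Real.log_inv] at h3
    rw [hnorm r θ h4, Real.rpow_def_of_pos h5]
    apply Real.exp_le_exp.2
    linarith

end Pool.Agent.TH653.MD
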